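import Mathlib
import Pool.Agent.Helper35.EC.Zone
import Pool.Agent.Helper94.EC.Bounds

/-!
# MP_0db605_an, EC-Z5 : all the errors, crude form
-/

set_option autoImplicit false

namespace EC

/-- Cauchy-Schwarz with norms -/
theorem z5_cs {a b c d x y z w N B : ℝ} (hN : 0 ≤ N) (hB : 0 ≤ B)
    (h1 : a ^ 2 + b ^ 2 + c ^ 2 + d ^ 2 ≤ N ^ 2) (h2 : x ^ 2 + y ^ 2 + z ^ 2 + w ^ 2 ≤ B ^ 2) :
    |a * x + b * y + c * z + d * w| ≤ N * B := by
  apply abs_le_of_sq_le_sq _ (mul_nonneg hN hB)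
  calc (a * x + b * y + c * z + d * w) ^ 2
      ≤ (a ^ 2 + b ^ 2 + c ^ 2 + d ^ 2) * (x ^ 2 + y ^ 2 + z ^ 2 + w ^ 2) := bd_cs4 _ _ _ _ _ _ _ _
    _ ≤ N ^ 2 * B ^ 2 := mul_le_mul h1 h2 (by positivity) (by positivity)
    _ = (N * B) ^ 2 := by ring

theorem z5_Lam {h m a b c d P Q R S N B : ℝ} (h0 : 0 ≤ h) (hm0 : 0 ≤ m) (hhm : h * m ≤ 1 / 10)
    (hN : 0 ≤ N) (hB : 0 ≤ B)
    (h1 : a ^ 2 + b ^ 2 + c ^ 2 + d ^ 2 ≤ N ^ 2) (h2 : P ^ 2 + Q ^ 2 + R ^ 2 + S ^ 2 ≤ B ^ 2) :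
    |Lam h m a b c d P Q R S| ≤ 2 * (N * B) := by
  have e1 := z5_cs hN hB h1 h2
  have e2 := z5_cs (a := b) (b := a) (c := -d) (d := -c) hN hB (by linarith) h2
  have e3 : 0 ≤ h * m := mul_nonneg h0 hm0
  have e4 : 0 ≤ N * B := mul_nonneg hN hB
  unfold Lam
  have e5 : |h * m * (b * P + a * Q - d * R - c * S)| ≤ 1 / 10 * (N * B) := by
    rw [abs_mul, abs_of_nonneg e3]
    have e6 : b * P + a * Q - d * R - c * S = b * P + a * Q + -d * R + -c * S := by ring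
    rw [e6]
    exact mul_le_mul hhm e2 (abs_nonneg _) (by norm_num)
  calc _ ≤ |a * P + b * Q + c * R + d * S| + |h * m * (b * P + a * Q - d * R - c * S)| :=
        abs_add_le _ _
    _ ≤ 2 * (N * B) := by linarith

theorem z5_Bet {h m a b c d P Q R S P' Q' R' S' N B B' : ℝ} (h0 : 0 ≤ h) (hm0 : 0 ≤ m)
    (hhm : h * m ≤ 1 / 10) (hN : 0 ≤ N) (hB : 0 ≤ B) (hB' : 0 ≤ B')
    (h1 : a ^ 2 + b ^ 2 + c ^ 2 + d ^ 2 ≤ N ^ 2)
    (h2 : P ^ 2 + Q ^ 2 + R ^ 2 + S ^ 2 ≤ B ^ 2)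
    (h3 : P' ^ 2 + Q' ^ 2 + R' ^ 2 + S' ^ 2 ≤ B' ^ 2) :
    |Bet h m a b c d P Q R S P' Q' R' S'| ≤ 4 * (N ^ 2 * (B * B')) := by
  have e1 := z5_cs hN hB h1 h2
  have e2 := z5_cs hN hB' h1 h3
  have e3 := z5_cs (a := b) (b := a) (c := -d) (d := -c) hN hB (by linarith) h2
  have e4 := z5_cs (a := P) (b := -Q) (c := -R) (d := S) hB hB' (by linarith) h3
  have e5 := z5_cs (a := Q) (b := -P) (c := S) (d := -R) hB hB' (by linarith) h3
  have e6 : |a ^ 2 - b ^ 2 - c ^ 2 + d ^ 2| ≤ N ^ 2 := by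
    rw [abs_le]
    constructor <;> linarith only [h1, sq_nonneg a, sq_nonneg b, sq_nonneg c, sq_nonneg d]
  have e7 : 0 ≤ h * m := mul_nonneg h0 hm0
  have e8 : 0 ≤ N * B := mul_nonneg hN hB
  have e9 : 0 ≤ N * B' := mul_nonneg hN hB'
  have e10 : 0 ≤ B * B' := mul_nonneg hB hB'
  have e3' : |b * P + a * Q - d * R - c * S| ≤ N * B := by
    convert e3 using 2
    ring
  have e4' : |P * P' - Q * Q' - R * R' + S * S'| ≤ B * B' := by
    convert e4 using 2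
    ring
  have e5' : |Q * P' - P * Q' + S * R' - R * S'| ≤ B * B' := by
    convert e5 using 2
    ring
  have f1 : |2 * (a * P + b * Q + c * R + d * S) * (a * P' + b * Q' + c * R' + d * S')|
      ≤ 2 * (N ^ 2 * (B * B')) := by
    rw [abs_mul, abs_mul, abs_of_pos (by norm_num : (0:ℝ) < 2)]
    have := mul_le_mul e1 e2 (abs_nonneg _) e8
    calc 2 * |a * P + b * Q + c * R + d * S| * |a * P' + b * Q' + c * R' + d * S'|
        = 2 * (|a * P + b * Q + c * R + d * S| * |a * P' + b * Q' + c * R' + d * S'|) := by ring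
      _ ≤ 2 * (N * B * (N * B')) := by linarith
      _ = 2 * (N ^ 2 * (B * B')) := by ring
  have f2 : |(a ^ 2 - b ^ 2 - c ^ 2 + d ^ 2) * (P * P' - Q * Q' - R * R' + S * S')|
      ≤ N ^ 2 * (B * B') := by
    rw [abs_mul]
    exact mul_le_mul e6 e4' (abs_nonneg _) (sq_nonneg _)
  have f3 : |2 * (b * P + a * Q - d * R - c * S) * (a * P' + b * Q' + c * R' + d * S')|
      ≤ 2 * (N ^ 2 * (B * B')) := by
    rw [abs_mul, abs_mul, abs_of_pos (by norm_num : (0:ℝ) < 2)]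
    have := mul_le_mul e3' e2 (abs_nonneg _) e8
    calc 2 * |b * P + a * Q - d * R - c * S| * |a * P' + b * Q' + c * R' + d * S'|
        = 2 * (|b * P + a * Q - d * R - c * S| * |a * P' + b * Q' + c * R' + d * S'|) := by ring
      _ ≤ 2 * (N * B * (N * B')) := by linarith
      _ = 2 * (N ^ 2 * (B * B')) := by ring
  have f4 : |(a ^ 2 - b ^ 2 - c ^ 2 + d ^ 2) * (Q * P' - P * Q' + S * R' - R * S')|
      ≤ N ^ 2 * (B * B') := by
    rw [abs_mul]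
    exact mul_le_mul e6 e5' (abs_nonneg _) (sq_nonneg _)
  have e11 : 0 ≤ N ^ 2 * (B * B') := by positivity
  unfold Bet
  have f5 : |h * m * (2 * (b * P + a * Q - d * R - c * S) * (a * P' + b * Q' + c * R' + d * S')
      - (a ^ 2 - b ^ 2 - c ^ 2 + d ^ 2) * (Q * P' - P * Q' + S * R' - R * S'))|
      ≤ 1 / 10 * (3 * (N ^ 2 * (B * B'))) := by
    rw [abs_mul, abs_of_nonneg e7]
    apply mul_le_mul hhm _ (abs_nonneg _) (by norm_num)
    refine le_trans (abs_sub _ _) ?_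
    linarith
  refine le_trans (abs_add_le _ _) ?_
  have := abs_sub (2 * (a * P + b * Q + c * R + d * S) * (a * P' + b * Q' + c * R' + d * S'))
    ((a ^ 2 - b ^ 2 - c ^ 2 + d ^ 2) * (P * P' - Q * Q' - R * R' + S * S'))
  linarith

/-- norm of a combination `A + E D` -/
theorem z5_comb {K E A1 A2 A3 A4 D1 D2 D3 D4 : ℝ} (hK : 10 ^ 15 ≤ K) (hE0 : 0 ≤ E) (hE1 : E ≤ 1)
    (hD : D1 ^ 2 + D2 ^ 2 + D3 ^ 2 + D4 ^ 2 ≤ 81)
    (hA : A1 ^ 2 + A2 ^ 2 + A3 ^ 2 + A4 ^ 2 ≤ (10 * K) ^ 2) :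
    (A1 + E * D1) ^ 2 + (A2 + E * D2) ^ 2 + (A3 + E * D3) ^ 2 + (A4 + E * D4) ^ 2
      ≤ (20 * K) ^ 2 := by
  have hK0 : 0 < K := lt_of_lt_of_le (by norm_num) hK
  have e1 : E ^ 2 ≤ 1 := by nlinarith only [hE1, hE0]
  have e2 : E ^ 2 * (D1 ^ 2 + D2 ^ 2 + D3 ^ 2 + D4 ^ 2) ≤ 81 := by
    have := mul_le_mul e1 hD (by positivity) (by norm_num)
    linarith
  have e3 : (A1 + E * D1) ^ 2 + (A2 + E * D2) ^ 2 + (A3 + E * D3) ^ 2 + (A4 + E * D4) ^ 2
      ≤ 2 * (A1 ^ 2 + A2 ^ 2 + A3 ^ 2 + A4 ^ 2) +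
        2 * (E ^ 2 * (D1 ^ 2 + D2 ^ 2 + D3 ^ 2 + D4 ^ 2)) := by
    linarith only [sq_nonneg (A1 - E * D1), sq_nonneg (A2 - E * D2), sq_nonneg (A3 - E * D3),
      sq_nonneg (A4 - E * D4)]
  have e4 : (1:ℝ) ≤ K ^ 2 := by
    have : (1:ℝ) ≤ K := le_trans (by norm_num) hK
    nlinarith only [hK]
  linarith only [hA, e2, e3, e4]

theorem err_crude {h K m a b c d E E' t t' D1 D2 D3 D4 D1' D2' D3' D4' A1 A2 A3 A4 A1' A2' A3' A4'
    p1 p2 p3 p4 p1' p2' p3' p4' : ℝ}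
    (hK : 10 ^ 15 ≤ K) (h0 : 0 < h) (hh : 10 ^ 60 * K ^ 40 * h ≤ 1) (hm0 : 0 ≤ m) (hm : m ≤ 4)
    (ha : |a| ≤ 4 * K) (hb : |b| ≤ 4 * K) (hc : |c| ≤ 4 * K) (hd : |d| ≤ 4 * K)
    (hE0 : 0 ≤ E) (hE1 : E ≤ 1) (hE0' : 0 ≤ E') (hE1' : E' ≤ 1)
    (hE : (E' - E) ^ 2 ≤ 1000 / K ^ 2 * (a ^ 2 + b ^ 2 + c ^ 2 + d ^ 2))
    (ht : |t| ≤ 160 / K) (ht' : |t'| ≤ 160 / K)
    (hdt : |t' - t| ≤ 1500 / K ^ 2 * Real.sqrt (a ^ 2 + b ^ 2 + c ^ 2 + d ^ 2))
    (h1 : |p1' - p1| ≤ |a|) (h2 : |p2' - p2| ≤ |b|) (h3 : |p3' - p3| ≤ |c|) (h4 : |p4' - p4| ≤ |d|)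
    (hD : D1 ^ 2 + D2 ^ 2 + D3 ^ 2 + D4 ^ 2 ≤ 81) (hD' : D1' ^ 2 + D2' ^ 2 + D3' ^ 2 + D4' ^ 2 ≤ 81)
    (hA : A1 ^ 2 + A2 ^ 2 + A3 ^ 2 + A4 ^ 2 ≤ (10 * K) ^ 2)
    (hA' : A1' ^ 2 + A2' ^ 2 + A3' ^ 2 + A4' ^ 2 ≤ (10 * K) ^ 2)
    (hp : p1 ^ 2 + p2 ^ 2 + p3 ^ 2 + p4 ^ 2 ≤ (4 * K) ^ 2)
    (hp' : p1' ^ 2 + p2' ^ 2 + p3' ^ 2 + p4' ^ 2 ≤ (4 * K) ^ 2) :
    |(E' - E) * ((Lam h m a b c d D1 D2 D3 D4 + Lam h m a b c d D1' D2' D3' D4') / 2)|
      + |h / 2 * (E' - E) * (Bet h m a b c d D1 D2 D3 D4 A1' A2' A3' A4'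
          - Bet h m a b c d A1 A2 A3 A4 D1' D2' D3' D4')|
      + |h * (E * E' - (E + E') / 2) * Bet h m a b c d D1 D2 D3 D4 D1' D2' D3' D4'|
      + |t' * Lam h m a b c d p1' p2' p3' p4' - t * Lam h m a b c d p1 p2 p3 p4|
      + |h * (t' * Bet h m a b c d (A1 + E * D1) (A2 + E * D2) (A3 + E * D3) (A4 + E * D4)
            p1' p2' p3' p4'
          + t * Bet h m a b c d p1 p2 p3 p4
            (A1' + E' * D1') (A2' + E' * D2') (A3' + E' * D3') (A4' + E' * D4')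
          - t * t' * Bet h m a b c d p1 p2 p3 p4 p1' p2' p3' p4')|
      ≤ 1 / 100 * (a ^ 2 + b ^ 2 + c ^ 2 + d ^ 2) := by
  have hK0 : 0 < K := lt_of_lt_of_le (by norm_num) hK
  have hK1 : 1 ≤ K := le_trans (by norm_num) hK
  -- smallness of `h`
  have hhK : h * K ≤ 1 / 10 ^ 60 := by
    have e1 : K ≤ K ^ 40 := by
      calc K = K ^ 1 := (pow_one K).symm
        _ ≤ K ^ 40 := pow_le_pow_right₀ hK1 (by norm_num)
    have e2 : 10 ^ 60 * (K * h) ≤ 10 ^ 60 * (K ^ 40 * h) := by gcongr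
    have e3 : 10 ^ 60 * (K * h) ≤ 1 := le_trans e2 (by linarith)
    rw [le_div_iff₀ (by positivity)]
    linarith
  have hh1 : h ≤ 1 / 10 ^ 60 := by
    have : h * 1 ≤ h * K := mul_le_mul_of_nonneg_left hK1 h0.le
    linarith
  have hhm : h * m ≤ 1 / 10 := by
    have e1 : h * m ≤ h * 4 := mul_le_mul_of_nonneg_left hm h0.le
    have e2 : h * 4 ≤ 1 / 10 := by
      have : (1:ℝ) / 10 ^ 60 * 4 ≤ 1 / 10 := by norm_num
      linarith only [h0, hh1]
    linarith only [h0, hh1, e1]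
  have hinvK : 1 / K ≤ 1 / 10 ^ 15 := one_div_le_one_div_of_le (by norm_num) hK
  have hinv0 : 0 < 1 / K := by positivity
  set n : ℝ := a ^ 2 + b ^ 2 + c ^ 2 + d ^ 2 with hn
  have hn0 : 0 ≤ n := by positivity
  set N : ℝ := Real.sqrt n with hNdef
  have hN0 : 0 ≤ N := Real.sqrt_nonneg _
  have hN2 : N ^ 2 = n := Real.sq_sqrt hn0
  have hY : a ^ 2 + b ^ 2 + c ^ 2 + d ^ 2 ≤ N ^ 2 := by rw [hN2]
  clear_value N
  have h9 : (0:ℝ) ≤ 9 := by norm_num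
  have hD9 : D1 ^ 2 + D2 ^ 2 + D3 ^ 2 + D4 ^ 2 ≤ 9 ^ 2 := by linarith only [hD]
  have hD9' : D1' ^ 2 + D2' ^ 2 + D3' ^ 2 + D4' ^ 2 ≤ 9 ^ 2 := by linarith only [hD']
  have h10K : (0:ℝ) ≤ 10 * K := by positivity
  have h4K : (0:ℝ) ≤ 4 * K := by positivity
  have h20K : (0:ℝ) ≤ 20 * K := by positivity
  -- the first error
  have hEN : |E' - E| ≤ 32 * (1 / K) * N := by
    apply abs_le_of_sq_le_sq _ (by positivity)
    calc (E' - E) ^ 2 ≤ 1000 / K ^ 2 * n := hE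
      _ = 1000 * (1 / K) ^ 2 * N ^ 2 := by rw [hN2]; ring
      _ ≤ 1024 * (1 / K) ^ 2 * N ^ 2 := by gcongr; norm_num
      _ = (32 * (1 / K) * N) ^ 2 := by ring
  have T1 : |(E' - E) * ((Lam h m a b c d D1 D2 D3 D4 + Lam h m a b c d D1' D2' D3' D4') / 2)|
      ≤ 1 / 1000 * n := by
    have l1 := z5_Lam h0.le hm0 hhm hN0 h9 hY hD9
    have l2 := z5_Lam h0.le hm0 hhm hN0 h9 hY hD9'
    have l3 : |(Lam h m a b c d D1 D2 D3 D4 + Lam h m a b c d D1' D2' D3' D4') / 2|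
        ≤ 18 * N := by
      rw [abs_div, abs_of_pos (by norm_num : (0:ℝ) < 2), div_le_iff₀ (by norm_num)]
      refine le_trans (abs_add_le _ _) ?_
      linarith only [l1, l2]
    rw [abs_mul]
    calc _ ≤ 32 * (1 / K) * N * (18 * N) := mul_le_mul hEN l3 (abs_nonneg _) (by positivity)
      _ = 576 * (1 / K) * n := by rw [← hN2]; ring
      _ ≤ 1 / 1000 * n := by
        apply mul_le_mul_of_nonneg_right _ hn0
        linarith only [h0, hh1, hinvK]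
  -- the second error
  have hE1a : |E' - E| ≤ 1 := by rw [abs_le]; constructor <;> linarith
  have T2 : |h / 2 * (E' - E) * (Bet h m a b c d D1 D2 D3 D4 A1' A2' A3' A4'
          - Bet h m a b c d A1 A2 A3 A4 D1' D2' D3' D4')| ≤ 1 / 1000 * n := by
    have l1 := z5_Bet h0.le hm0 hhm hN0 h9 h10K hY hD9 hA'
    have l2 := z5_Bet h0.le hm0 hhm hN0 h10K h9 hY hA hD9'
    have l3 : |Bet h m a b c d D1 D2 D3 D4 A1' A2' A3' A4'
          - Bet h m a b c d A1 A2 A3 A4 D1' D2' D3' D4'| ≤ 720 * K * n := by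
      refine le_trans (abs_sub _ _) ?_
      rw [← hN2]
      linarith only [l1, l2]
    rw [abs_mul, abs_mul, abs_of_pos (by positivity : 0 < h / 2)]
    calc h / 2 * |E' - E| * |Bet h m a b c d D1 D2 D3 D4 A1' A2' A3' A4'
          - Bet h m a b c d A1 A2 A3 A4 D1' D2' D3' D4'|
        ≤ h / 2 * 1 * (720 * K * n) := by
          apply mul_le_mul _ l3 (abs_nonneg _) (by positivity)
          exact mul_le_mul_of_nonneg_left hE1a (by positivity)
      _ = 360 * (h * K) * n := by ring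
      _ ≤ 1 / 1000 * n := by
        apply mul_le_mul_of_nonneg_right _ hn0
        have : (360:ℝ) * (1 / 10 ^ 60) ≤ 1 / 1000 := by norm_num
        linarith only [h0, hhK, hh1]
  -- the third error
  have T3 : |h * (E * E' - (E + E') / 2) * Bet h m a b c d D1 D2 D3 D4 D1' D2' D3' D4'|
      ≤ 1 / 1000 * n := by
    have l1 := z5_Bet h0.le hm0 hhm hN0 h9 h9 hY hD9 hD9'
    have l2 : |E * E' - (E + E') / 2| ≤ 1 := by
      rw [abs_le]
      constructor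
      · linarith only [hE1, hE1', hE0, hE0', mul_nonneg hE0 hE0']
      · linarith only [hE0, hE0', hE1, hE1', mul_le_mul hE1 hE1' hE0' zero_le_one]
    rw [abs_mul, abs_mul, abs_of_pos h0]
    calc h * |E * E' - (E + E') / 2| * |Bet h m a b c d D1 D2 D3 D4 D1' D2' D3' D4'|
        ≤ h * 1 * (4 * (N ^ 2 * (9 * 9))) := by
          apply mul_le_mul _ l1 (abs_nonneg _) (by positivity)
          exact mul_le_mul_of_nonneg_left l2 h0.le
      _ = 324 * h * n := by rw [← hN2]; ring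
      _ ≤ 1 / 1000 * n := by
        apply mul_le_mul_of_nonneg_right _ hn0
        have : (324:ℝ) * (1 / 10 ^ 60) ≤ 1 / 1000 := by norm_num
        linarith only [h0, hh1]
  -- the fourth error
  have T4 : |t' * Lam h m a b c d p1' p2' p3' p4' - t * Lam h m a b c d p1 p2 p3 p4|
      ≤ 1 / 1000 * n := by
    have l0 : (p1' - p1) ^ 2 + (p2' - p2) ^ 2 + (p3' - p3) ^ 2 + (p4' - p4) ^ 2 ≤ N ^ 2 := by
      rw [hN2, hn]
      have q1 := sq_le_sq.2 h1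
      have q2 := sq_le_sq.2 h2
      have q3 := sq_le_sq.2 h3
      have q4 := sq_le_sq.2 h4
      linarith only [q1, q2, q3, q4]
    have l1 := z5_Lam h0.le hm0 hhm hN0 hN0 hY l0
    have l2 := z5_Lam h0.le hm0 hhm hN0 h4K hY hp
    have e : t' * Lam h m a b c d p1' p2' p3' p4' - t * Lam h m a b c d p1 p2 p3 p4
        = t' * Lam h m a b c d (p1' - p1) (p2' - p2) (p3' - p3) (p4' - p4)
          + (t' - t) * Lam h m a b c d p1 p2 p3 p4 := by
      unfold Lam; ring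
    rw [e]
    refine le_trans (abs_add_le _ _) ?_
    rw [abs_mul, abs_mul]
    have f1 : |t'| * |Lam h m a b c d (p1' - p1) (p2' - p2) (p3' - p3) (p4' - p4)|
        ≤ 320 * (1 / K) * n := by
      calc _ ≤ 160 / K * (2 * (N * N)) := mul_le_mul ht' l1 (abs_nonneg _) (by positivity)
        _ = 320 * (1 / K) * n := by rw [← hN2]; ring
    have f2 : |t' - t| * |Lam h m a b c d p1 p2 p3 p4| ≤ 12000 * (1 / K) * n := by
      calc _ ≤ 1500 / K ^ 2 * N * (2 * (N * (4 * K))) :=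
            mul_le_mul hdt l2 (abs_nonneg _) (by positivity)
        _ = 12000 * (1 / K) * n := by rw [← hN2]; field_simp; ring
    have f3 : 12320 * (1 / K) * n ≤ 1 / 1000 * n := by
      apply mul_le_mul_of_nonneg_right _ hn0
      linarith only [h0, hh1, hinvK]
    linarith only [f1, f2, f3]
  -- the fifth error
  have T5 : |h * (t' * Bet h m a b c d (A1 + E * D1) (A2 + E * D2) (A3 + E * D3) (A4 + E * D4)
            p1' p2' p3' p4'
          + t * Bet h m a b c d p1 p2 p3 p4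
            (A1' + E' * D1') (A2' + E' * D2') (A3' + E' * D3') (A4' + E' * D4')
          - t * t' * Bet h m a b c d p1 p2 p3 p4 p1' p2' p3' p4')| ≤ 1 / 1000 * n := by
    have c1 := z5_comb hK hE0 hE1 hD hA
    have c2 := z5_comb hK hE0' hE1' hD' hA'
    have l1 := z5_Bet h0.le hm0 hhm hN0 h20K h4K hY c1 hp'
    have l2 := z5_Bet h0.le hm0 hhm hN0 h4K h20K hY hp c2
    have l3 := z5_Bet h0.le hm0 hhm hN0 h4K h4K hY hp hp'
    have f1 : |t' * Bet h m a b c d (A1 + E * D1) (A2 + E * D2) (A3 + E * D3) (A4 + E * D4)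
            p1' p2' p3' p4'| ≤ 51200 * K * n := by
      rw [abs_mul]
      calc _ ≤ 160 / K * (4 * (N ^ 2 * (20 * K * (4 * K)))) :=
            mul_le_mul ht' l1 (abs_nonneg _) (by positivity)
        _ = 51200 * K * n := by rw [← hN2]; field_simp; ring
    have f2 : |t * Bet h m a b c d p1 p2 p3 p4
            (A1' + E' * D1') (A2' + E' * D2') (A3' + E' * D3') (A4' + E' * D4')|
        ≤ 51200 * K * n := by
      rw [abs_mul]
      calc _ ≤ 160 / K * (4 * (N ^ 2 * (4 * K * (20 * K)))) :=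
            mul_le_mul ht l2 (abs_nonneg _) (by positivity)
        _ = 51200 * K * n := by rw [← hN2]; field_simp; ring
    have f3 : |t * t' * Bet h m a b c d p1 p2 p3 p4 p1' p2' p3' p4'| ≤ 1638400 * K * n := by
      rw [abs_mul, abs_mul]
      calc _ ≤ 160 / K * (160 / K) * (4 * (N ^ 2 * (4 * K * (4 * K)))) := by
            apply mul_le_mul _ l3 (abs_nonneg _) (by positivity)
            exact mul_le_mul ht ht' (abs_nonneg _) (by positivity)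
        _ = 1638400 * 1 * n := by rw [← hN2]; field_simp; ring
        _ ≤ 1638400 * K * n := by
          apply mul_le_mul_of_nonneg_right _ hn0
          linarith only [hK, h0, hh1]
    rw [abs_mul, abs_of_pos h0]
    have f4 := abs_sub (t' * Bet h m a b c d (A1 + E * D1) (A2 + E * D2) (A3 + E * D3) (A4 + E * D4)
            p1' p2' p3' p4'
          + t * Bet h m a b c d p1 p2 p3 p4
            (A1' + E' * D1') (A2' + E' * D2') (A3' + E' * D3') (A4' + E' * D4'))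
          (t * t' * Bet h m a b c d p1 p2 p3 p4 p1' p2' p3' p4')
    have f5 := abs_add_le
      (t' * Bet h m a b c d (A1 + E * D1) (A2 + E * D2) (A3 + E * D3) (A4 + E * D4)
            p1' p2' p3' p4')
          (t * Bet h m a b c d p1 p2 p3 p4
            (A1' + E' * D1') (A2' + E' * D2') (A3' + E' * D3') (A4' + E' * D4'))
    calc _ ≤ h * (1740800 * K * n) := by
          apply mul_le_mul_of_nonneg_left _ h0.le
          linarith only [f1, f2, f3, f4, f5]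
      _ = 1740800 * (h * K) * n := by ring
      _ ≤ 1 / 1000 * n := by
        apply mul_le_mul_of_nonneg_right _ hn0
        have : (1740800:ℝ) * (1 / 10 ^ 60) ≤ 1 / 1000 := by norm_num
        linarith only [h0, hhK, hh1]
  linarith only [hn0, T1, T2, T3, T4, T5]

end EC
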