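import Mathlib

/-!
# Points of a Weierstrass curve after a change of variables

For a field `F`, a Weierstrass curve `W` over `F` and an admissible change of variables `C` the map
`(x, y) ↦ (u² x + r, u³ y + u² s x + t)` is an isomorphism of the groups of points of `C • W` and
of `W`.
-/

set_option autoImplicit false

namespace Pool.Agent.Helper21.EC

open WeierstrassCurve

variable {F : Type*} [Field F]

/-- The `x` coordinate after the change of variables. -/
def cx (C : VariableChange F) (x : F) : F := (C.u : F) ^ 2 * x + C.r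

/-- The `y` coordinate after the change of variables. -/
def cy (C : VariableChange F) (x y : F) : F :=
  (C.u : F) ^ 3 * y + (C.u : F) ^ 2 * C.s * x + C.t

theorem cx_inj (C : VariableChange F) {x x' : F} : cx C x = cx C x' ↔ x = x' := by
  have hu : (C.u : F) ≠ 0 := C.u.ne_zero
  constructor
  · intro h
    simp only [cx] at h
    have : (C.u : F) ^ 2 * (x - x') = 0 := by linear_combination h
    rcases mul_eq_zero.1 this with h | h
    · exact absurd (pow_eq_zero_iff (two_ne_zero)|>.1 h) hu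
    · exact sub_eq_zero.1 h
  · rintro rfl; rfl

theorem cy_inj (C : VariableChange F) {x y y' : F} : cy C x y = cy C x y' ↔ y = y' := by
  have hu : (C.u : F) ≠ 0 := C.u.ne_zero
  constructor
  · intro h
    simp only [cy] at h
    have : (C.u : F) ^ 3 * (y - y') = 0 := by linear_combination h
    rcases mul_eq_zero.1 this with h | h
    · exact absurd (pow_eq_zero_iff (three_ne_zero)|>.1 h) hu
    · exact sub_eq_zero.1 h
  · rintro rfl; rfl

variable (W : WeierstrassCurve F)

theorem equation_c (C : VariableChange F) (x y : F) :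
    W.toAffine.Equation (cx C x) (cy C x y) ↔ (C • W).toAffine.Equation x y := by
  have hu : (C.u : F) ≠ 0 := C.u.ne_zero
  rw [Affine.equation_iff', Affine.equation_iff', variableChange_def]
  simp only [cx, cy, Units.val_inv_eq_inv_val]
  constructor
  · intro h
    field_simp
    linear_combination h
  · intro h
    field_simp at h
    linear_combination h

theorem negY_c (C : VariableChange F) (x y : F) :
    W.toAffine.negY (cx C x) (cy C x y) = cy C x ((C • W).toAffine.negY x y) := by
  have hu : (C.u : F) ≠ 0 := C.u.ne_zero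
  rw [variableChange_def]
  simp only [Affine.negY, cx, cy, Units.val_inv_eq_inv_val]
  field_simp
  ring

theorem nonsingular_c (C : VariableChange F) (x y : F) :
    W.toAffine.Nonsingular (cx C x) (cy C x y) ↔ (C • W).toAffine.Nonsingular x y := by
  have hu : (C.u : F) ≠ 0 := C.u.ne_zero
  rw [Affine.nonsingular_iff', Affine.nonsingular_iff', equation_c]
  refine and_congr Iff.rfl ?_
  have h1 : 2 * cy C x y + W.a₁ * cx C x + W.a₃ =
      (C.u : F) ^ 3 * (2 * y + (C • W).a₁ * x + (C • W).a₃) := by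
    rw [variableChange_def]
    simp only [cx, cy, Units.val_inv_eq_inv_val]
    field_simp
    ring
  have h2 : W.a₁ * cy C x y - (3 * cx C x ^ 2 + 2 * W.a₂ * cx C x + W.a₄) =
      (C.u : F) ^ 4 * ((C • W).a₁ * y - (3 * x ^ 2 + 2 * (C • W).a₂ * x + (C • W).a₄)) -
        C.s * (2 * cy C x y + W.a₁ * cx C x + W.a₃) := by
    rw [variableChange_def]
    simp only [cx, cy, Units.val_inv_eq_inv_val]
    field_simp
    ring
  rw [h2, h1]
  have hu3 : (C.u : F) ^ 3 ≠ 0 := pow_ne_zero _ hu
  have hu4 : (C.u : F) ^ 4 ≠ 0 := pow_ne_zero _ hu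
  by_cases hY : 2 * y + (C • W).a₁ * x + (C • W).a₃ = 0
  · simp [hY, hu]
  · simp [hY, hu]

variable [DecidableEq F]

theorem slope_c (C : VariableChange F) {x₁ x₂ y₁ y₂ : F}
    (h₁ : (C • W).toAffine.Equation x₁ y₁) (h₂ : (C • W).toAffine.Equation x₂ y₂)
    (h : ¬(x₁ = x₂ ∧ y₁ = (C • W).toAffine.negY x₂ y₂)) :
    W.toAffine.slope (cx C x₁) (cx C x₂) (cy C x₁ y₁) (cy C x₂ y₂) =
      (C.u : F) * (C • W).toAffine.slope x₁ x₂ y₁ y₂ + C.s := by
  have hu : (C.u : F) ≠ 0 := C.u.ne_zero
  by_cases hx : x₁ = x₂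
  · subst hx
    have hy : y₁ ≠ (C • W).toAffine.negY x₁ y₂ := fun h' => h ⟨rfl, h'⟩
    obtain rfl : y₁ = y₂ := Affine.Y_eq_of_Y_ne h₁ h₂ rfl hy
    have hy' : cy C x₁ y₁ ≠ W.toAffine.negY (cx C x₁) (cy C x₁ y₁) := by
      rw [negY_c]
      exact fun h' => hy ((cy_inj C).1 h')
    rw [Affine.slope_of_Y_ne rfl hy', Affine.slope_of_Y_ne rfl hy]
    have hd : y₁ - (C • W).toAffine.negY x₁ y₁ ≠ 0 := sub_ne_zero.2 hy
    have hd' : cy C x₁ y₁ - W.toAffine.negY (cx C x₁) (cy C x₁ y₁) =
        (C.u : F) ^ 3 * (y₁ - (C • W).toAffine.negY x₁ y₁) := by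
      rw [negY_c]; simp only [cy]; ring
    have h2 : 3 * cx C x₁ ^ 2 + 2 * W.a₂ * cx C x₁ + W.a₄ - W.a₁ * cy C x₁ y₁ =
        (C.u : F) ^ 4 * (3 * x₁ ^ 2 + 2 * (C • W).a₂ * x₁ + (C • W).a₄ - (C • W).a₁ * y₁) +
          C.s * ((C.u : F) ^ 3 * (y₁ - (C • W).toAffine.negY x₁ y₁)) := by
      rw [variableChange_def]
      simp only [cx, cy, Affine.negY, Units.val_inv_eq_inv_val]
      field_simp
      ring
    rw [hd', h2]
    generalize y₁ - (C • W).toAffine.negY x₁ y₁ = D at hd
    field_simp
  · have hx' : cx C x₁ ≠ cx C x₂ := fun h' => hx ((cx_inj C).1 h')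
    rw [Affine.slope_of_X_ne hx, Affine.slope_of_X_ne hx']
    have h1 : x₁ - x₂ ≠ 0 := sub_ne_zero.2 hx
    have h2 : cx C x₁ - cx C x₂ = (C.u : F) ^ 2 * (x₁ - x₂) := by simp only [cx]; ring
    rw [h2]
    simp only [cy]
    field_simp
    ring

theorem addX_c (C : VariableChange F) (x₁ x₂ l : F) :
    W.toAffine.addX (cx C x₁) (cx C x₂) ((C.u : F) * l + C.s) =
      cx C ((C • W).toAffine.addX x₁ x₂ l) := by
  have hu : (C.u : F) ≠ 0 := C.u.ne_zero
  rw [variableChange_def]
  simp only [Affine.addX, cx, Units.val_inv_eq_inv_val]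
  field_simp
  ring

theorem addY_c (C : VariableChange F) (x₁ x₂ y₁ l : F) :
    W.toAffine.addY (cx C x₁) (cx C x₂) (cy C x₁ y₁) ((C.u : F) * l + C.s) =
      cy C ((C • W).toAffine.addX x₁ x₂ l) ((C • W).toAffine.addY x₁ x₂ y₁ l) := by
  have h1 : W.toAffine.negAddY (cx C x₁) (cx C x₂) (cy C x₁ y₁) ((C.u : F) * l + C.s) =
      cy C ((C • W).toAffine.addX x₁ x₂ l) ((C • W).toAffine.negAddY x₁ x₂ y₁ l) := by
    rw [Affine.negAddY, addX_c, Affine.negAddY]
    simp only [cx, cy]
    ring
  rw [Affine.addY, h1, addX_c, negY_c]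
  rfl

/-- The map of the points. -/
def toPt (C : VariableChange F) : (C • W).toAffine.Point → W.toAffine.Point
  | 0 => 0
  | .some _ _ h => .some _ _ ((nonsingular_c W C _ _).2 h)

/-- The change of variables as a homomorphism of the groups of points. -/
def hom (C : VariableChange F) : (C • W).toAffine.Point →+ W.toAffine.Point where
  toFun := toPt W C
  map_zero' := rfl
  map_add' := by
    rintro (_ | ⟨x₁, y₁, h₁⟩) (_ | ⟨x₂, y₂, h₂⟩)
    · rfl
    · rfl
    · rfl
    · by_cases hxy : x₁ = x₂ ∧ y₁ = (C • W).toAffine.negY x₂ y₂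
      · obtain ⟨hx, hy⟩ := hxy
        rw [Affine.Point.add_of_Y_eq hx hy]
        simp only [toPt]
        rw [Affine.Point.add_of_Y_eq (by rw [hx]) (by rw [negY_c, hy, hx])]
      · rw [Affine.Point.add_some hxy]
        have hxy' : ¬(cx C x₁ = cx C x₂ ∧ cy C x₁ y₁ = W.toAffine.negY (cx C x₂) (cy C x₂ y₂)) := by
          rintro ⟨hx, hy⟩
          have hx := (cx_inj C).1 hx
          subst hx
          rw [negY_c] at hy
          exact hxy ⟨rfl, (cy_inj C).1 hy⟩
        simp only [toPt]
        rw [Affine.Point.add_some hxy']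
        have hs := slope_c W C h₁.1 h₂.1 hxy
        simp only [Affine.Point.some.injEq]
        rw [hs]
        exact ⟨(addX_c W C _ _ _).symm, (addY_c W C _ _ _ _).symm⟩

theorem hom_some (C : VariableChange F) {x y : F} (h : (C • W).toAffine.Nonsingular x y) :
    hom W C (.some _ _ h) = .some _ _ ((nonsingular_c W C _ _).2 h) := rfl

theorem hom_injective (C : VariableChange F) : Function.Injective (hom W C) := by
  rw [injective_iff_map_eq_zero]
  rintro (_ | ⟨x, y, h⟩) h0
  · rfl
  · rw [hom_some] at h0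
    cases h0

theorem hom_surjective (C : VariableChange F) : Function.Surjective (hom W C) := by
  have hu : (C.u : F) ≠ 0 := C.u.ne_zero
  rintro (_ | ⟨x, y, h⟩)
  · exact ⟨0, rfl⟩
  · have hx : cx C (((C.u : F) ^ 2)⁻¹ * (x - C.r)) = x := by
      simp only [cx]; field_simp; ring
    have hy : cy C (((C.u : F) ^ 2)⁻¹ * (x - C.r))
        (((C.u : F) ^ 3)⁻¹ * (y - C.s * (x - C.r) - C.t)) = y := by
      simp only [cy]; field_simp; ring
    have h' : (C • W).toAffine.Nonsingular (((C.u : F) ^ 2)⁻¹ * (x - C.r))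
        (((C.u : F) ^ 3)⁻¹ * (y - C.s * (x - C.r) - C.t)) := by
      rw [← nonsingular_c, hx, hy]
      exact h
    refine ⟨.some _ _ h', ?_⟩
    rw [hom_some]
    simp only [Affine.Point.some.injEq]
    exact ⟨hx, hy⟩

/-- The change of variables as an isomorphism of the groups of points. -/
noncomputable def equiv (C : VariableChange F) : (C • W).toAffine.Point ≃+ W.toAffine.Point :=
  AddEquiv.ofBijective (hom W C) ⟨hom_injective W C, hom_surjective W C⟩

end Pool.Agent.Helper21.EC
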