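import Mathlib
import Pool.Agent.Helper21.EC.VC
import Pool.Agent.Helper58.IQ.Curve

/-!
# Curves with a stable subgroup of order 3

Every elliptic curve over a field `K` of characteristic zero with a stable subgroup of order `3` has
after a change of variables over `K` the form `y ^ 2 = x ^ 3 + d (a x + b) ^ 2`, and the subgroup
consists of the point at infinity and the points with `x = 0`.
-/

set_option autoImplicit false

namespace Pool.Agent.Helper21.EC

open WeierstrassCurve

open Pool.Agent.Helper58.IQ (E Good)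

section one

variable {F : Type*} [Field F]

/-- The change of variables that moves the point with the `x` coordinate `r` to `x = 0` and
completes the square. -/
def chg (W : WeierstrassCurve F) (r : F) : VariableChange F where
  u := 1
  r := r
  s := - W.a₁ / 2
  t := - (W.a₃ + r * W.a₁) / 2

theorem chg_a₁ (h2 : (2 : F) ≠ 0) (W : WeierstrassCurve F) (r : F) : (chg W r • W).a₁ = 0 := by
  simp only [chg, variableChange_def]
  field_simp
  simp

theorem chg_a₃ (h2 : (2 : F) ≠ 0) (W : WeierstrassCurve F) (r : F) : (chg W r • W).a₃ = 0 := by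
  simp only [chg, variableChange_def]
  field_simp
  simp

variable [DecidableEq F]

/-- A point of order `3` with `x = 0` on a curve with `a₁ = a₃ = 0`. -/
theorem order_three (h2 : (2 : F) ≠ 0) (W : WeierstrassCurve F) (h₁ : W.a₁ = 0) (h₃ : W.a₃ = 0)
    {y : F} (h : W.toAffine.Nonsingular 0 y)
    (hP : (Affine.Point.some 0 y h : W.toAffine.Point) + .some 0 y h = - .some 0 y h) :
    y ≠ 0 ∧ y ^ 2 = W.a₆ ∧ W.a₂ = (W.a₄ / (2 * y)) ^ 2 := by
  have hneg : W.toAffine.negY 0 y = - y := by simp [Affine.negY, h₁, h₃]
  have he : y ^ 2 = W.a₆ := by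
    have := h.1
    rw [Affine.equation_iff] at this
    rw [h₁, h₃] at this
    linear_combination this
  have hy : y ≠ 0 := by
    rintro rfl
    rw [Affine.Point.add_self_of_Y_eq (by rw [hneg]; simp)] at hP
    cases hP
  have hne : y ≠ W.toAffine.negY 0 y := by
    rw [hneg]
    intro h'
    have : 2 * y = 0 := by linear_combination h'
    exact hy ((mul_eq_zero.1 this).resolve_left h2)
  refine ⟨hy, he, ?_⟩
  rw [Affine.Point.add_self_of_Y_ne hne, Affine.Point.neg_some] at hP
  simp only [Affine.Point.some.injEq] at hP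
  have hx := hP.1
  rw [Affine.slope_of_Y_ne rfl hne, hneg, Affine.addX, h₁] at hx
  have h22 : y - - y = 2 * y := by ring
  rw [h22] at hx
  simp at hx
  linear_combination - hx

omit [DecidableEq F] in
/-- Such a curve is a member of the family. -/
theorem eq_E (h2 : (2 : F) ≠ 0) (W : WeierstrassCurve F) (h₁ : W.a₁ = 0) (h₃ : W.a₃ = 0)
    (h₆ : W.a₆ ≠ 0) (h₂ : W.a₂ * (4 * W.a₆) = W.a₄ ^ 2) :
    W = E W.a₆ (W.a₄ / (2 * W.a₆)) 1 := by
  ext
  · exact h₁
  · simp only [E]
    field_simp
    linear_combination h₂
  · exact h₃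
  · simp only [E]
    field_simp
  · simp [E]

omit [DecidableEq F] in
theorem disc_E (d a b : F) :
    (E d a b).Δ = 16 * b ^ 3 * d ^ 2 * (4 * a ^ 3 * d - 27 * b) := by
  simp only [WeierstrassCurve.Δ, WeierstrassCurve.b₂, WeierstrassCurve.b₄, WeierstrassCurve.b₆,
    WeierstrassCurve.b₈, E]
  ring

end one

end Pool.Agent.Helper21.EC
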