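import Mathlib
import Pool.Agent.Helper21.EC.VC
import Pool.Agent.Helper58.IQ.Curve

/-!
# Change of variables over `K` and the points over an algebraic closure
-/

set_option autoImplicit false

namespace Pool.Agent.Helper21.EC

open WeierstrassCurve
open Pool.Agent.Helper58.IQ (Kb GK Pts ptsRep tor3 Stab)

section general

variable {F : Type*} [Field F] [DecidableEq F]

/-- The change of variables `C` from `W₁ = C • W₂` to `W₂`. -/
noncomputable def equivOf {W₁ W₂ : WeierstrassCurve F} (C : VariableChange F) (h : W₁ = C • W₂) :
    W₁.toAffine.Point ≃+ W₂.toAffine.Point := by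
  subst h; exact equiv W₂ C

theorem nonsingular_of {W₁ W₂ : WeierstrassCurve F} (C : VariableChange F) (h : W₁ = C • W₂)
    {x y : F} (hx : W₁.toAffine.Nonsingular x y) :
    W₂.toAffine.Nonsingular (cx C x) (cy C x y) := by
  subst h; exact (nonsingular_c W₂ C _ _).2 hx

theorem equivOf_some {W₁ W₂ : WeierstrassCurve F} (C : VariableChange F) (h : W₁ = C • W₂)
    {x y : F} (hx : W₁.toAffine.Nonsingular x y) :
    equivOf C h (.some x y hx) = .some (cx C x) (cy C x y) (nonsingular_of C h hx) := by
  subst h; rfl

end general

variable {K : Type*} [Field K]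

theorem baseChange_eq (W : WeierstrassCurve K) (C : VariableChange K) :
    Affine.baseChange (C • W) (Kb K) =
      C.map (algebraMap K (Kb K)) • (Affine.baseChange W (Kb K)) :=
  (map_variableChange W C (algebraMap K (Kb K))).symm

/-- The change of variables `C` over `K` as an isomorphism of the groups of points. -/
noncomputable def equivL (W : WeierstrassCurve K) (C : VariableChange K) : Pts (C • W) ≃+ Pts W :=
  equivOf (C.map (algebraMap K (Kb K))) (baseChange_eq W C)

theorem equivL_some (W : WeierstrassCurve K) (C : VariableChange K) {x y : Kb K}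
    (h : (Affine.baseChange (C • W) (Kb K)).Nonsingular x y) :
    equivL W C (.some x y h) = .some (cx (C.map (algebraMap K (Kb K))) x)
      (cy (C.map (algebraMap K (Kb K))) x y) (nonsingular_of _ (baseChange_eq W C) h) :=
  equivOf_some _ _ h

theorem ptsRep_some (W : WeierstrassCurve K) (g : GK K) {x y : Kb K}
    (h : (Affine.baseChange W (Kb K)).Nonsingular x y) :
    ∃ h', ptsRep W g (.some x y h) = .some (g x) (g y) h' := ⟨_, rfl⟩

theorem equivL_gal (W : WeierstrassCurve K) (C : VariableChange K) (g : GK K) (P : Pts (C • W)) :
    equivL W C (ptsRep (C • W) g P) = ptsRep W g (equivL W C P) := by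
  rcases P with _ | ⟨x, y, h⟩
  · change equivL W C (ptsRep (C • W) g 0) = ptsRep W g (equivL W C 0)
    simp
  · obtain ⟨h1, e1⟩ := ptsRep_some (C • W) g h
    obtain ⟨h4, e4⟩ := ptsRep_some W g (nonsingular_of _ (baseChange_eq W C) h)
    rw [e1, equivL_some, equivL_some, e4]
    simp only [Affine.Point.some.injEq]
    constructor
    · simp [cx, VariableChange.map]
    · simp [cy, VariableChange.map]

end Pool.Agent.Helper21.EC
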