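import Mathlib
import Pool.Agent.Helper21.EC.VC
import Pool.Agent.Helper21.EC.Fam
import Pool.Agent.Helper21.EC.Gal
import Pool.Agent.Helper58.IQ.Curve
import Pool.Agent.Helper58.IQ.S1

/-!
# The 3-torsion subgroup has nine elements
-/

set_option autoImplicit false

namespace Pool.Agent.Helper21.EC

open WeierstrassCurve Polynomial
open Pool.Agent.Helper58.IQ

/-- Counting in an abelian group. -/
theorem card_nine {A : Type*} [AddCommGroup A] (t w : A) (ht : 3 • t = 0) (hw : 3 • w = 0)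
    (hsp : ∀ P : A, 3 • P = 0 → ∃ m n : ℤ, P = m • t + n • w)
    (hin : ∀ m n : ℤ, m • t + n • w = 0 → (3 : ℤ) ∣ m ∧ (3 : ℤ) ∣ n) :
    Nat.card (nsmulAddMonoidHom 3 : A →+ A).ker = 9 := by
  have htz : (3 : ℤ) • t = 0 := by exact_mod_cast ht
  have hwz : (3 : ℤ) • w = 0 := by exact_mod_cast hw
  let f : Fin 3 × Fin 3 → (nsmulAddMonoidHom 3 : A →+ A).ker := fun p =>
    ⟨((p.1 : ℕ) : ℤ) • t + ((p.2 : ℕ) : ℤ) • w, by
      rw [AddMonoidHom.mem_ker, nsmulAddMonoidHom_apply, smul_add,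
        smul_comm (3 : ℕ) (((p.1 : ℕ) : ℤ)), smul_comm (3 : ℕ) (((p.2 : ℕ) : ℤ)), ht, hw,
        smul_zero, smul_zero, add_zero]⟩
  have hf : Function.Bijective f := by
    constructor
    · rintro ⟨i, j⟩ ⟨i', j'⟩ h
      have h := congrArg Subtype.val h
      simp only [f] at h
      have h0 : (((i : ℕ) : ℤ) - ((i' : ℕ) : ℤ)) • t + (((j : ℕ) : ℤ) - ((j' : ℕ) : ℤ)) • w = 0 := by
        rw [sub_zsmul, sub_zsmul]
        rw [← sub_eq_zero] at h
        rw [← h]
        abel
      obtain ⟨h1, h2⟩ := hin _ _ h0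
      have hi := i.isLt
      have hi' := i'.isLt
      have hj := j.isLt
      have hj' := j'.isLt
      ext
      · simp only; omega
      · simp only; omega
    · rintro ⟨P, hP⟩
      obtain ⟨m, n, rfl⟩ := hsp P hP
      refine ⟨(⟨(m % 3).toNat, by omega⟩, ⟨(n % 3).toNat, by omega⟩), ?_⟩
      apply Subtype.ext
      simp only [f]
      have e1 : (((m % 3).toNat : ℕ) : ℤ) • t = m • t := by
        have hm : m = 3 * (m / 3) + m % 3 := by omega
        rw [Int.toNat_of_nonneg (by omega)]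
        conv_rhs => rw [hm]
        rw [add_zsmul, mul_comm, mul_zsmul, htz, smul_zero, zero_add]
      have e2 : (((n % 3).toNat : ℕ) : ℤ) • w = n • w := by
        have hm : n = 3 * (n / 3) + n % 3 := by omega
        rw [Int.toNat_of_nonneg (by omega)]
        conv_rhs => rw [hm]
        rw [add_zsmul, mul_comm, mul_zsmul, hwz, smul_zero, zero_add]
      rw [e1, e2]
  rw [← Nat.card_eq_of_bijective f hf]
  simp

theorem card_ker_equiv {A B : Type*} [AddCommGroup A] [AddCommGroup B] (e : A ≃+ B) :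
    Nat.card (nsmulAddMonoidHom 3 : A →+ A).ker = Nat.card (nsmulAddMonoidHom 3 : B →+ B).ker := by
  apply Nat.card_congr
  refine
    { toFun := fun x => ⟨e x, ?_⟩
      invFun := fun y => ⟨e.symm y, ?_⟩
      left_inv := fun x => Subtype.ext (e.symm_apply_apply _)
      right_inv := fun y => Subtype.ext (e.apply_symm_apply _) }
  · have := x.2
    change (3 : ℕ) • (x : A) = 0 at this
    change (3 : ℕ) • e (x : A) = 0
    rw [← map_nsmul, this, map_zero]
  · have := y.2
    change (3 : ℕ) • (y : B) = 0 at this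
    change (3 : ℕ) • e.symm (y : B) = 0
    rw [← map_nsmul, this, map_zero]

variable {F : Type*} [Field F] [CharZero F] [IsAlgClosed F]

theorem exists_rts {d a b : F} (h : Good d a b) : ∃ r ζ θ : F, Rts d a b r ζ θ := by
  obtain ⟨hd, hb, hg⟩ := h
  obtain ⟨r, hr⟩ := IsAlgClosed.exists_pow_nat_eq d (n := 2) two_pos
  obtain ⟨q, hq⟩ := IsAlgClosed.exists_pow_nat_eq (-3 : F) (n := 2) two_pos
  obtain ⟨θ, hθ⟩ := IsAlgClosed.exists_pow_nat_eq (a ^ 3 - 27 * b / (4 * d)) (n := 3) three_pos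
  refine ⟨r, (q - 1) / 2, θ, hd, hb, hr, ?_, ?_, ?_⟩
  · field_simp
    linear_combination hq
  · rw [hθ]
    field_simp
    ring
  · rintro rfl
    apply hg
    rw [zero_pow three_ne_zero] at hθ
    field_simp at hθ
    linear_combination - hθ

theorem exists_point (W : WeierstrassCurve F) (h1 : W.a₁ = 0) (h3 : W.a₃ = 0) (hΔ : W.Δ ≠ 0) :
    ∃ (x y : F) (_ : W.toAffine.Nonsingular x y), psi W x = 0 := by
  let p : F[X] := C 3 * X ^ 4 + C (4 * W.a₂) * X ^ 3 + C (6 * W.a₄) * X ^ 2 + C (12 * W.a₆) * X +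
    C (4 * W.a₂ * W.a₆ - W.a₄ ^ 2)
  have hdeg : p.degree ≠ 0 := by
    have : p.degree = 4 := by
      simp only [p]
      compute_degree!
    rw [this]; decide
  obtain ⟨x, hx⟩ := IsAlgClosed.exists_root p hdeg
  obtain ⟨y, hy⟩ := IsAlgClosed.exists_pow_nat_eq (ff W x) (n := 2) two_pos
  refine ⟨x, y, (Affine.equation_iff_nonsingular_of_Δ_ne_zero hΔ).1 ((eqn_iff h1 h3).2 hy), ?_⟩
  have : p.eval x = psi W x := by
    simp only [p, psi]
    simp
  rw [← this]
  exact hx

variable [DecidableEq F]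

theorem card_point (W : WeierstrassCurve F) (hΔ : W.Δ ≠ 0) :
    Nat.card (nsmulAddMonoidHom 3 : W.toAffine.Point →+ W.toAffine.Point).ker = 9 := by
  have h2 : (2 : F) ≠ 0 := two_ne_zero
  -- complete the square
  have hΔ1 : (chg W 0 • W).Δ ≠ 0 := by
    rw [variableChange_Δ]
    exact mul_ne_zero (pow_ne_zero _ (Units.ne_zero _)) hΔ
  have c1 := card_ker_equiv (equiv W (chg W 0))
  rw [← c1]
  obtain ⟨h1, h3⟩ : (chg W 0 • W).a₁ = 0 ∧ (chg W 0 • W).a₃ = 0 := ⟨chg_a₁ h2 W 0, chg_a₃ h2 W 0⟩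
  generalize chg W 0 • W = V at *
  -- move a point of order three
  obtain ⟨x, y, h, hpsi⟩ := exists_point V h1 h3 hΔ1
  have htor := (three_smul_iff h2 h1 h3 h).2 hpsi
  set C := chg V x with hC
  have hΔ2 : (C • V).Δ ≠ 0 := by
    rw [variableChange_Δ]
    exact mul_ne_zero (pow_ne_zero _ (Units.ne_zero _)) hΔ1
  have c2 := card_ker_equiv (equiv V C)
  rw [← c2]
  obtain ⟨P', hP'⟩ := (equiv V C).surjective (.some x y h)
  rcases P' with _ | ⟨x', y', h'⟩
  · have : equiv V C 0 = .some x y h := hP'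
    rw [map_zero] at this
    cases this
  have hx' : x' = 0 := by
    have h3 : hom V C (.some x' y' h') = .some x y h := hP'
    rw [hom_some] at h3
    simp only [Affine.Point.some.injEq] at h3
    have h4 := h3.1
    simpa [cx, hC, chg] using h4
  subst hx'
  have ha₁ : (C • V).a₁ = 0 := chg_a₁ h2 V x
  have ha₃ : (C • V).a₃ = 0 := chg_a₃ h2 V x
  have h3P : (Affine.Point.some 0 y' h' : (C • V).toAffine.Point) + .some 0 y' h' =
      - .some 0 y' h' := by
    apply (equiv V C).injective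
    rw [map_add, map_neg, hP']
    rw [show (3 : ℕ) = 2 + 1 from rfl, add_nsmul, one_nsmul, two_nsmul] at htor
    exact eq_neg_of_add_eq_zero_left htor
  obtain ⟨hy0, hy2, hA⟩ := order_three h2 _ ha₁ ha₃ h' h3P
  have h₆ : (C • V).a₆ ≠ 0 := by
    rw [← hy2]; exact pow_ne_zero _ hy0
  have h₂ : (C • V).a₂ * (4 * (C • V).a₆) = (C • V).a₄ ^ 2 := by
    rw [hA, ← hy2]
    field_simp
    ring
  have hE := eq_E h2 (C • V) ha₁ ha₃ h₆ h₂
  set d := (C • V).a₆ with hd
  set a := (C • V).a₄ / (2 * d) with ha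
  have hIs : IsE (C • V) d a 1 := by
    rw [hE]
    exact ⟨rfl, rfl, rfl, rfl, rfl⟩
  have hgood : Good d a 1 := by
    refine ⟨h₆, one_ne_zero, ?_⟩
    intro h
    apply hΔ2
    rw [hE, disc_E, h]
    ring
  obtain ⟨r, ζ, θ, hr⟩ := exists_rts hgood
  exact card_nine _ _ (tors_t hIs hr) (tors_w hIs hr) (span3 hIs hr) (indep3 hIs hr)

/-- The 3-torsion subgroup has nine elements. -/
theorem card_tor3 {K : Type*} [Field K] [CharZero K] (W : WeierstrassCurve K) (hW : W.Δ ≠ 0) :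
    Nat.card (tor3 W) = 9 := by
  apply card_point (Affine.baseChange W (Kb K))
  change (W.map (algebraMap K (Kb K))).Δ ≠ 0
  rw [map_Δ]
  exact fun h => hW ((map_eq_zero _).1 h)

end Pool.Agent.Helper21.EC
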