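import Mathlib
import Pool.Agent.Helper21.EC.VC
import Pool.Agent.Helper21.EC.Fam
import Pool.Agent.Helper21.EC.Gal
import Pool.Agent.Helper58.IQ.Curve

/-!
# Curves with a stable subgroup of order 3
-/

set_option autoImplicit false

namespace Pool.Agent.Helper21.EC

open WeierstrassCurve
open Pool.Agent.Helper58.IQ

variable {K : Type*} [Field K]

/-- A subgroup of order three consists of `0`, `P` and `-P`. -/
theorem mem_three {A : Type*} [AddCommGroup A] (T : AddSubgroup A) (hc : Nat.card T = 3)
    (hT : ∀ P ∈ T, 3 • P = 0) : ∃ P ∈ T, P ≠ 0 ∧ ∀ Q, Q ∈ T ↔ Q = 0 ∨ Q = P ∨ Q = -P := by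
  classical
  have hfin : Finite T := Nat.finite_of_card_ne_zero (by rw [hc]; norm_num)
  have hnt : Nontrivial T := by
    rw [← Finite.one_lt_card_iff_nontrivial, hc]; norm_num
  obtain ⟨⟨P, hP⟩, hP0⟩ := exists_ne (0 : T)
  have hP0 : P ≠ 0 := fun h => hP0 (Subtype.ext h)
  refine ⟨P, hP, hP0, fun Q => ⟨fun hQ => ?_, ?_⟩⟩
  · by_contra hne
    push Not at hne
    obtain ⟨h0, h1, h2⟩ := hne
    have hPP : P ≠ -P := by
      intro h
      apply hP0
      have h3 := hT P hP
      have : (2 : ℕ) • P = 0 := by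
        rw [two_nsmul]
        nth_rw 1 [h]
        simp
      have h32 : (3 : ℕ) • P = (2 : ℕ) • P + P := by
        rw [show (3 : ℕ) = 2 + 1 from rfl, add_nsmul, one_nsmul]
      rw [h32, this, zero_add] at h3
      exact h3
    let f : Fin 4 → T := ![0, ⟨P, hP⟩, ⟨-P, T.neg_mem hP⟩, ⟨Q, hQ⟩]
    have hf : Function.Injective f := by
      have hnP : -P ≠ 0 := neg_ne_zero.2 hP0
      intro i j hij
      have hij := congrArg Subtype.val hij
      fin_cases i <;> fin_cases j <;> simp [f] at hij ⊢
      all_goals first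
        | exact hP0 hij
        | exact hP0 hij.symm
        | exact hnP hij
        | exact hnP hij.symm
        | exact h0 hij
        | exact h0 hij.symm
        | exact h1 hij
        | exact h1 hij.symm
        | exact h2 hij
        | exact h2 hij.symm
        | exact hPP hij
        | exact hPP hij.symm
    have := Nat.card_le_card_of_injective f hf
    rw [hc] at this
    simp at this
  · rintro (rfl | rfl | rfl)
    · exact T.zero_mem
    · exact hP
    · exact T.neg_mem hP

theorem family [CharZero K] (W : WeierstrassCurve K) (hW : W.Δ ≠ 0)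
    (T : AddSubgroup (Pts W)) (hT : T ≤ tor3 W) (hs : Stab W T) (hc : Nat.card T = 3) :
    ∃ d a b : K, Good d a b ∧ ∃ e : Pts W ≃+ Pts (E d a b),
      (∀ g P, e (ptsRep W g P) = ptsRep (E d a b) g (e P)) ∧
      ∀ P, P ∈ T ↔ (e P = 0 ∨ ∃ y h, e P = Affine.Point.some 0 y h) := by
  have h2 : (2 : K) ≠ 0 := two_ne_zero
  have h2' : (2 : Kb K) ≠ 0 := two_ne_zero
  have hinj : Function.Injective (algebraMap K (Kb K)) := (algebraMap K (Kb K)).injective
  obtain ⟨P, hPT, hP0, hmem⟩ := mem_three T hc (fun P hP => mem_tor3.1 (hT hP))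
  rcases P with _ | ⟨x₀, y₀, h₀⟩
  · exact absurd rfl hP0
  -- the `x` coordinate is rational
  have hfix : ∀ g : GK K, g x₀ = x₀ := by
    intro g
    have h1 := hs g _ hPT
    obtain ⟨h', e'⟩ := ptsRep_some W g h₀
    rw [e', hmem] at h1
    rcases h1 with h1 | h1 | h1
    · cases h1
    · simp only [Affine.Point.some.injEq] at h1
      exact h1.1
    · rw [Affine.Point.neg_some] at h1
      simp only [Affine.Point.some.injEq] at h1
      exact h1.1
  have hgal : IsGalois K (Kb K) := inferInstance
  obtain ⟨r, hr⟩ := (InfiniteGalois.mem_range_algebraMap_iff_fixed x₀).2 hfix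
  set C := chg W r with hC
  set φ := equivL W C with hφ
  -- the point on the new curve
  obtain ⟨P', hP'⟩ := φ.surjective (.some x₀ y₀ h₀)
  rcases P' with _ | ⟨x', y', h'⟩
  · have : φ 0 = .some x₀ y₀ h₀ := hP'
    rw [map_zero] at this
    cases this
  have hx' : x' = 0 := by
    have h3 := hP'
    rw [hφ, equivL_some] at h3
    simp only [Affine.Point.some.injEq] at h3
    have h4 := h3.1
    rw [← hr] at h4
    simpa [cx, hC, chg, VariableChange.map] using h4
  subst hx'
  have ha₁ : (Affine.baseChange (C • W) (Kb K)).a₁ = 0 := by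
    change algebraMap K (Kb K) (C • W).a₁ = 0
    rw [hC, chg_a₁ h2, map_zero]
  have ha₃ : (Affine.baseChange (C • W) (Kb K)).a₃ = 0 := by
    change algebraMap K (Kb K) (C • W).a₃ = 0
    rw [hC, chg_a₃ h2, map_zero]
  have h3P : (Affine.Point.some 0 y' h' : Pts (C • W)) + .some 0 y' h' = - .some 0 y' h' := by
    apply φ.injective
    rw [map_add, map_neg, hP']
    have := mem_tor3.1 (hT hPT)
    rw [show (3 : ℕ) = 2 + 1 from rfl, add_nsmul, one_nsmul, two_nsmul] at this
    exact eq_neg_of_add_eq_zero_left this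
  obtain ⟨hy0, hy2, hA⟩ := order_three h2' _ ha₁ ha₃ h' h3P
  have e₆ : (Affine.baseChange (C • W) (Kb K)).a₆ = algebraMap K (Kb K) (C • W).a₆ := rfl
  have e₂ : (Affine.baseChange (C • W) (Kb K)).a₂ = algebraMap K (Kb K) (C • W).a₂ := rfl
  have e₄ : (Affine.baseChange (C • W) (Kb K)).a₄ = algebraMap K (Kb K) (C • W).a₄ := rfl
  have h₆ : (C • W).a₆ ≠ 0 := by
    intro h
    rw [e₆, h, map_zero] at hy2
    exact hy0 (by simpa using hy2)
  have h₂ : (C • W).a₂ * (4 * (C • W).a₆) = (C • W).a₄ ^ 2 := by
    apply hinj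
    rw [map_mul, map_mul, map_pow, ← e₂, ← e₄, ← e₆, hA, ← hy2]
    simp only [map_ofNat]
    field_simp
    ring
  have hE := eq_E h2 (C • W) (by rw [hC, chg_a₁ h2]) (by rw [hC, chg_a₃ h2]) h₆ h₂
  have hΔ : (C • W).Δ ≠ 0 := by
    rw [variableChange_Δ]
    exact mul_ne_zero (pow_ne_zero _ (Units.ne_zero _)) hW
  refine ⟨(C • W).a₆, (C • W).a₄ / (2 * (C • W).a₆), 1, ⟨h₆, one_ne_zero, ?_⟩, ?_⟩
  · intro h
    apply hΔ
    rw [hE, disc_E, h]
    ring
  rw [← hE]
  refine ⟨φ.symm, fun g Q => ?_, fun Q => ?_⟩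
  · apply φ.injective
    rw [hφ, equivL_gal, ← hφ, AddEquiv.apply_symm_apply, AddEquiv.apply_symm_apply]
  · have hs' : φ.symm (.some x₀ y₀ h₀) = .some 0 y' h' := by
      rw [← hP', AddEquiv.symm_apply_apply]
    rw [hmem]
    constructor
    · rintro (rfl | rfl | rfl)
      · left; simp
      · right; exact ⟨y', h', hs'⟩
      · right
        rw [map_neg, hs', Affine.Point.neg_some]
        exact ⟨_, _, rfl⟩
    · rintro (h | ⟨y, h, hQ⟩)
      · left
        simpa using h
      · right
        have hyy : y ^ 2 = y' ^ 2 := by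
          rw [hy2]
          have := h.1
          rw [Affine.equation_iff] at this
          rw [ha₁, ha₃] at this
          linear_combination this
        have hn : (Affine.baseChange (C • W) (Kb K)).negY 0 y' = - y' := by
          rw [Affine.negY, ha₁, ha₃]
          ring
        rcases sq_eq_sq_iff_eq_or_eq_neg.1 hyy with h5 | h5
        · left
          apply φ.symm.injective
          rw [hs', hQ]
          simp [h5]
        · right
          apply φ.symm.injective
          rw [map_neg, hs', hQ, Affine.Point.neg_some]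
          simp only [Affine.Point.some.injEq]
          exact ⟨trivial, by rw [hn, h5]⟩

end Pool.Agent.Helper21.EC
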