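import Mathlib
import Pool.Agent.Helper35.EC.Geom
import Pool.Agent.Helper51.EC.Chart
import Pool.Agent.Helper48.EC.Calc

/-!
# MP_0db605_an, piece EC-T4b: first variation and regularity of the integrand
-/

namespace EC

open Matrix Filter Topology
open scoped Matrix.Norms.Elementwise

/-! ### uniqueness of the first variation -/

theorem IsFirstVar.unique {n k : ℕ} {F : Matrix (Fin n) (Fin n) ℝ → ℝ}
    {T B B' : Matrix (Fin n) (Fin n) ℝ} (hT : T ∈ Gr n k)
    (hB : IsFirstVar k F T B) (hB' : IsFirstVar k F T B') : B = B' := by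
  obtain ⟨W, hW, hWT⟩ := exists_frame hT
  have h1 : ∀ L : Matrix (Fin n) (Fin n) ℝ, trace (Bᵀ * L) = trace (B'ᵀ * L) := fun L =>
    (hB W hW hWT L).unique (hB' W hW hWT L)
  have h2 : Bᵀ = B'ᵀ := Matrix.ext_iff_trace_mul_right.2 h1
  exact Matrix.transpose_injective h2

/-! ### the cutoff vanishes for steep planes -/

theorem theta_zero_of_big {K u y w z : ℝ} (hK : 10 ^ 10 ≤ K)
    (h : 16 * K ^ 2 ≤ u ^ 2 + y ^ 2 + w ^ 2 + z ^ 2) : theta K u y w z = 0 := by
  have hK0 : 0 < K := lt_of_lt_of_le (by norm_num) hK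
  have hN : K ^ 2 ≤ NN u y w z := by
    by_contra hlt
    push Not at hlt
    have e1 : k2 u ^ 2 ≤ NN u y w z := by unfold NN; nlinarith [sq_nonneg (k1 y), sq_nonneg w, sq_nonneg z]
    have e2 : k1 y ^ 2 ≤ NN u y w z := by unfold NN; nlinarith [sq_nonneg (k2 u), sq_nonneg w, sq_nonneg z]
    have e3 : w ^ 2 ≤ NN u y w z := by unfold NN; nlinarith [sq_nonneg (k1 y), sq_nonneg (k2 u), sq_nonneg z]
    have e4 : z ^ 2 ≤ NN u y w z := by unfold NN; nlinarith [sq_nonneg (k1 y), sq_nonneg w, sq_nonneg (k2 u)]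
    have a1 : |k2 u| < K := abs_lt_of_sq_lt_sq (e1.trans_lt hlt) hK0.le
    have a2 : |k1 y| < K := abs_lt_of_sq_lt_sq (e2.trans_lt hlt) hK0.le
    have a3 : |w| < K := abs_lt_of_sq_lt_sq (e3.trans_lt hlt) hK0.le
    have a4 : |z| < K := abs_lt_of_sq_lt_sq (e4.trans_lt hlt) hK0.le
    have b1 : |u| ≤ |k2 u| + 2 := by
      unfold k2 pos
      rcases le_total 0 u with hu | hu
      · rcases le_total u 2 with h2 | h2
        · rw [abs_of_nonneg hu]
          have := abs_nonneg (max (u - 2) 0 - max (-u - 2) 0)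
          linarith
        · rw [max_eq_left (by linarith), max_eq_right (by linarith), abs_of_nonneg hu, abs_of_nonneg (by linarith)]
          linarith
      · rcases le_total (-u) 2 with h2 | h2
        · rw [abs_of_nonpos hu]
          have := abs_nonneg (max (u - 2) 0 - max (-u - 2) 0)
          linarith
        · rw [max_eq_right (by linarith), max_eq_left (by linarith), abs_of_nonpos hu, abs_of_nonpos (by linarith)]
          linarith
    have b2 : |y| ≤ |k1 y| + 1 := by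
      unfold k1 pos
      rcases le_total 0 y with hu | hu
      · rcases le_total y 1 with h2 | h2
        · rw [abs_of_nonneg hu]
          have := abs_nonneg (max (y - 1) 0 - max (-y - 1) 0)
          linarith
        · rw [max_eq_left (by linarith), max_eq_right (by linarith), abs_of_nonneg hu, abs_of_nonneg (by linarith)]
          linarith
      · rcases le_total (-y) 1 with h2 | h2
        · rw [abs_of_nonpos hu]
          have := abs_nonneg (max (y - 1) 0 - max (-y - 1) 0)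
          linarith
        · rw [max_eq_right (by linarith), max_eq_left (by linarith), abs_of_nonpos hu, abs_of_nonpos (by linarith)]
          linarith
    have c1 : |u| < 3 / 2 * K := by linarith
    have c2 : |y| < 3 / 2 * K := by linarith
    have d1 : u ^ 2 < (3 / 2 * K) ^ 2 := sq_lt_sq' (by linarith [neg_abs_le u]) (by linarith [le_abs_self u])
    have d2 : y ^ 2 < (3 / 2 * K) ^ 2 := sq_lt_sq' (by linarith [neg_abs_le y]) (by linarith [le_abs_self y])
    have d3 : w ^ 2 < K ^ 2 := sq_lt_sq' (by linarith [neg_abs_le w]) (by linarith [le_abs_self w])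
    have d4 : z ^ 2 < K ^ 2 := sq_lt_sq' (by linarith [neg_abs_le z]) (by linarith [le_abs_self z])
    nlinarith
  unfold theta pos
  apply max_eq_right
  have : 1 ≤ NN u y w z / K ^ 2 := by
    rw [le_div_iff₀ (by positivity)]; linarith
  linarith

/-- sum of squares of the coordinates -/
noncomputable def qf (X : M2) : ℝ := cu X ^ 2 + cy X ^ 2 + cw X ^ 2 + cz X ^ 2

theorem eps_small {ε K : ℝ} (hε : 0 < ε) (hK : 10 ^ 10 ≤ K)
    (hh : 10 ^ 60 * K ^ 40 * ε ^ 2 ≤ 1) : 16 * K ^ 2 * ε ^ 2 ≤ 1 / 100 := by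
  have hK1 : (1:ℝ) ≤ K := le_trans (by norm_num) hK
  have h1 : K ^ 2 ≤ K ^ 40 := pow_le_pow_right₀ hK1 (by norm_num)
  have h2 : 0 ≤ ε ^ 2 := sq_nonneg _
  have h3 : K ^ 2 * ε ^ 2 ≤ K ^ 40 * ε ^ 2 := mul_le_mul_of_nonneg_right h1 h2
  have h4 : (10:ℝ) ^ 60 * (K ^ 40 * ε ^ 2) ≤ 1 := by linarith
  have h5 : 0 ≤ K ^ 40 * ε ^ 2 := by positivity
  nlinarith

theorem psiM_eq_zero_of_theta {ε K : ℝ} {X : M2} (h : thetaM ε K X = 0) : psiM ε K X = 0 := by
  unfold psiM psi eta
  unfold thetaM at h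
  rw [h]
  ring

theorem Hm_eq_zero_of_theta {ε K : ℝ} {X : M2} (h : thetaM ε K X = 0) : Hm ε K X = 0 := by
  unfold thetaM at h
  unfold Hm HP HQ HR HS eta tau
  rw [h]
  ext i j
  fin_cases i <;> fin_cases j <;> simp [mat]

theorem thetaM_zero_of_qf {ε K : ℝ} (hε : 0 < ε) (hK : 10 ^ 10 ≤ K)
    (hh : 10 ^ 60 * K ^ 40 * ε ^ 2 ≤ 1) {X : M2} (hX : 1 / 100 ≤ qf X) : thetaM ε K X = 0 := by
  unfold thetaM
  apply theta_zero_of_big hK
  have h1 := eps_small hε hK hh
  have h2 : (cu X / ε) ^ 2 + (cy X / ε) ^ 2 + (cw X / ε) ^ 2 + (cz X / ε) ^ 2 = qf X / ε ^ 2 := by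
    unfold qf; field_simp
  rw [h2, le_div_iff₀ (by positivity)]
  linarith

theorem det_one_add (X : M2) :
    (1 + Xᵀ * X).det = 1 + 2 * qf X + (cu X ^ 2 - cy X ^ 2 - cw X ^ 2 + cz X ^ 2) ^ 2 := by
  simp [det_fin_two, Matrix.mul_apply, Fin.sum_univ_two, qf, cu, cy, cw, cz]
  ring

theorem det_one_add_le (X : M2) : (1 + Xᵀ * X).det ≤ (1 + qf X) ^ 2 := by
  rw [det_one_add]
  have h1 : (cu X ^ 2 - cy X ^ 2 - cw X ^ 2 + cz X ^ 2) ^ 2 ≤ qf X ^ 2 := by
    apply sq_le_sq'
    · unfold qf; nlinarith [sq_nonneg (cu X), sq_nonneg (cy X), sq_nonneg (cw X), sq_nonneg (cz X)]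
    · unfold qf; nlinarith [sq_nonneg (cu X), sq_nonneg (cy X), sq_nonneg (cw X), sq_nonneg (cz X)]
  nlinarith

theorem qf_nonneg (X : M2) : 0 ≤ qf X := by unfold qf; positivity

theorem det_one_add_pos (X : M2) : 0 < (1 + Xᵀ * X).det := by
  rw [det_one_add]
  have := qf_nonneg X
  positivity

/-- steep planes have large slope -/
theorem qf_big {T : M4} (hT : T ∈ Gr 4 2) (h0 : (blk11 T).det ≠ 0) (h : (blk11 T).det < 3 / 4) :
    1 / 100 < qf (Xof T) := by
  have h1 := det_blk11_Pm (Xof T)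
  rw [← eq_Pm_of_mem_Gr hT h0] at h1
  have h2 := det_one_add_pos (Xof T)
  have h3 := det_one_add_le (Xof T)
  rw [h1] at h
  have h4 : 4 / 3 < (1 + (Xof T)ᵀ * Xof T).det := by
    rw [inv_lt_comm₀ h2 (by norm_num)] at h
    norm_num at h ⊢
    exact h
  have h5 := qf_nonneg (Xof T)
  nlinarith

theorem FF_eq_one {ε K : ℝ} (hε : 0 < ε) (hK : 10 ^ 10 ≤ K)
    (hh : 10 ^ 60 * K ^ 40 * ε ^ 2 ≤ 1) {T : M4} (hT : T ∈ Gr 4 2) (h : (blk11 T).det < 3 / 4) :
    FF ε K T = 1 := by
  unfold FF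
  split_ifs with h1
  · rw [psiM_eq_zero_of_theta (thetaM_zero_of_qf hε hK hh (qf_big hT (by linarith : (0:ℝ) < _).ne' h).le)]
    simp
  · rfl

theorem Aof_eq_self {ε K : ℝ} (hε : 0 < ε) (hK : 10 ^ 10 ≤ K)
    (hh : 10 ^ 60 * K ^ 40 * ε ^ 2 ≤ 1) {T : M4} (hT : T ∈ Gr 4 2) (h : (blk11 T).det < 3 / 4) :
    Aof ε K T = T := by
  unfold Aof
  split_ifs with h1
  · rw [Hm_eq_zero_of_theta (thetaM_zero_of_qf hε hK hh (qf_big hT (by linarith : (0:ℝ) < _).ne' h).le)]
    simp
  · rfl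

/-! ### derivative of the Jacobian -/

theorem hasDerivAt_jac {n : ℕ} {W : Matrix (Fin n) (Fin 2) ℝ} (hW : Wᵀ * W = 1) (L : Matrix (Fin n) (Fin n) ℝ) :
    HasDerivAt (fun t : ℝ => jac ((1 + t • L) * W)) (trace (W * Wᵀ * L)) 0 := by
  set A : M2 := Wᵀ * Lᵀ * W + Wᵀ * L * W with hA
  set B : M2 := Wᵀ * Lᵀ * (L * W) with hB
  have hN : ∀ t : ℝ, ((1 + t • L) * W)ᵀ * ((1 + t • L) * W) = 1 + t • A + t ^ 2 • B := by
    intro t
    have e1 : (1 + t • L) * W = W + t • (L * W) := by
      rw [Matrix.add_mul, Matrix.one_mul, Matrix.smul_mul]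
    rw [e1, transpose_add, transpose_smul, transpose_mul, Matrix.add_mul, Matrix.mul_add, Matrix.mul_add, hW,
      Matrix.mul_smul, Matrix.smul_mul, Matrix.smul_mul, Matrix.mul_smul, smul_smul, hA, hB, smul_add,
      ← Matrix.mul_assoc, ← Matrix.mul_assoc, sq]
    abel
  have hdet : HasDerivAt (fun t : ℝ => (1 + t • A + t ^ 2 • B).det) (trace A) 0 := by
    have e1 : (fun t : ℝ => (1 + t • A + t ^ 2 • B).det) = fun t : ℝ =>
        (1 + t * A 0 0 + t ^ 2 * B 0 0) * (1 + t * A 1 1 + t ^ 2 * B 1 1)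
          - (t * A 0 1 + t ^ 2 * B 0 1) * (t * A 1 0 + t ^ 2 * B 1 0) := by
      funext t
      simp [det_fin_two]
    have hl : ∀ a b c : ℝ, HasDerivAt (fun t : ℝ => c + t * a + t ^ 2 * b) a 0 := by
      intro a b c
      have h1 : HasDerivAt (fun t : ℝ => t) 1 0 := hasDerivAt_id 0
      have h2 := ((h1.mul_const a).const_add c).add ((h1.pow 2).mul_const b)
      refine h2.congr_deriv ?_
      simp
    have hl0 : ∀ a b : ℝ, HasDerivAt (fun t : ℝ => t * a + t ^ 2 * b) a 0 := by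
      intro a b
      have := hl a b 0
      simpa using this
    rw [e1]
    have h3 := ((hl (A 0 0) (B 0 0) 1).mul (hl (A 1 1) (B 1 1) 1)).sub
      ((hl0 (A 0 1) (B 0 1)).mul (hl0 (A 1 0) (B 1 0)))
    refine h3.congr_deriv ?_
    simp [trace_fin_two]
  have hval : (1 + (0:ℝ) • A + (0:ℝ) ^ 2 • B).det = 1 := by simp
  have h4 := hdet.sqrt (by rw [hval]; norm_num)
  have h5 : (fun t : ℝ => jac ((1 + t • L) * W)) = fun t => Real.sqrt (1 + t • A + t ^ 2 • B).det := by
    funext t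
    unfold jac
    rw [hN t]
  rw [h5]
  refine h4.congr_deriv ?_
  rw [hval, Real.sqrt_one, hA, trace_add]
  have e1 : trace (Wᵀ * Lᵀ * W) = trace (W * Wᵀ * L) := by
    rw [← trace_transpose, transpose_mul, transpose_mul, transpose_transpose, transpose_transpose,
      ← Matrix.mul_assoc, trace_mul_cycle]
  have e2 : trace (Wᵀ * L * W) = trace (W * Wᵀ * L) := by
    rw [trace_mul_cycle]
  rw [e1, e2]
  ring

/-! ### continuity -/

theorem continuousAt_inv_matrix {k : ℕ} {A : Matrix (Fin k) (Fin k) ℝ} (h : A.det ≠ 0) :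
    ContinuousAt (fun B : Matrix (Fin k) (Fin k) ℝ => B⁻¹) A := by
  have h1 : (fun B : Matrix (Fin k) (Fin k) ℝ => B⁻¹) = fun B => (B.det)⁻¹ • B.adjugate := by
    funext B
    rw [Matrix.inv_def, Ring.inverse_eq_inv']
  rw [h1]
  have h2 : ContinuousAt (fun B : Matrix (Fin k) (Fin k) ℝ => B.det) A :=
    (Continuous.matrix_det continuous_id).continuousAt
  have h3 : ContinuousAt (fun B : Matrix (Fin k) (Fin k) ℝ => B.adjugate) A :=
    (Continuous.matrix_adjugate continuous_id).continuousAt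
  exact (h2.inv₀ h).smul h3

/-- the frame moved by `1 + tL` -/
def Mt (W : M42) (L : M4) (t : ℝ) : M42 := (1 + t • L) * W

theorem continuous_Mt (W : M42) (L : M4) : Continuous (Mt W L) := by
  unfold Mt
  exact (continuous_const.add (continuous_id.smul continuous_const)).matrix_mul continuous_const

theorem Mt_zero (W : M42) (L : M4) : Mt W L 0 = W := by
  unfold Mt; simp

theorem gram_ne {W : M42} (hW : Wᵀ * W = 1) (L : M4) :
    ∀ᶠ t in 𝓝 (0:ℝ), ((Mt W L t)ᵀ * Mt W L t).det ≠ 0 := by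
  have h1 : Continuous fun t => ((Mt W L t)ᵀ * Mt W L t).det :=
    (((continuous_Mt W L).matrix_transpose).matrix_mul (continuous_Mt W L)).matrix_det
  apply h1.continuousAt.eventually_ne
  rw [Mt_zero, hW]
  simp

theorem continuousAt_colProj {W : M42} (hW : Wᵀ * W = 1) (L : M4) :
    ContinuousAt (fun t => colProj (Mt W L t)) 0 := by
  unfold colProj
  have h1 : Continuous fun t => (Mt W L t)ᵀ * Mt W L t :=
    ((continuous_Mt W L).matrix_transpose).matrix_mul (continuous_Mt W L)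
  have h2 : ContinuousAt (fun t => ((Mt W L t)ᵀ * Mt W L t)⁻¹) 0 := by
    apply ContinuousAt.comp (g := fun B : M2 => B⁻¹) (f := fun t => (Mt W L t)ᵀ * Mt W L t)
    · apply continuousAt_inv_matrix
      rw [Mt_zero, hW]
      simp
    · exact h1.continuousAt
  have h3 : ContinuousAt (fun t => Mt W L t) 0 := (continuous_Mt W L).continuousAt
  have h4 : ContinuousAt (fun t => (Mt W L t)ᵀ) 0 := ((continuous_Mt W L).matrix_transpose).continuousAt
  have hm : Continuous fun q : M42 × M2 => q.1 * q.2 := continuous_fst.matrix_mul continuous_snd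
  have hm2 : Continuous fun q : M42 × Matrix (Fin 2) (Fin 4) ℝ => q.1 * q.2 :=
    continuous_fst.matrix_mul continuous_snd
  have h5 : ContinuousAt (fun t => Mt W L t * ((Mt W L t)ᵀ * Mt W L t)⁻¹) 0 :=
    hm.continuousAt.comp (h3.prodMk h2)
  exact hm2.continuousAt.comp (h5.prodMk h4)

theorem colProj_self {W : M42} {T : M4} (hW : Wᵀ * W = 1) (hT : W * Wᵀ = T) : colProj W = T := by
  unfold colProj
  rw [hW, inv_one, Matrix.mul_one, hT]

theorem continuous_det_blk11 : Continuous fun T : M4 => (blk11 T).det := by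
  have h : (fun T : M4 => (blk11 T).det) = fun T => T 0 0 * T 1 1 - T 0 1 * T 1 0 := by
    funext T
    simp [blk11, det_fin_two]
  rw [h]
  have e : ∀ i j : Fin 4, Continuous fun T : M4 => T i j := fun i j =>
    (continuous_apply j).comp (continuous_apply i)
  exact ((e 0 0).mul (e 1 1)).sub ((e 0 1).mul (e 1 0))

/-! ### the first variation far from the base plane -/

theorem firstVar_far {ε K : ℝ} (hε : 0 < ε) (hK : 10 ^ 10 ≤ K)
    (hh : 10 ^ 60 * K ^ 40 * ε ^ 2 ≤ 1) {T : M4} (hT : T ∈ Gr 4 2) (h : (blk11 T).det < 3 / 4)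
    {W : M42} (hW : Wᵀ * W = 1) (hWT : W * Wᵀ = T) (L : M4) :
    HasDerivAt (fun t : ℝ => FF ε K (colProj ((1 + t • L) * W)) * jac ((1 + t • L) * W))
      (trace ((FF ε K T • Aof ε K T)ᵀ * L)) 0 := by
  have h1 : ∀ᶠ t in 𝓝 (0:ℝ), (blk11 (colProj (Mt W L t))).det < 3 / 4 := by
    have hc : ContinuousAt (fun t => (blk11 (colProj (Mt W L t))).det) 0 :=
      ContinuousAt.comp (g := fun T : M4 => (blk11 T).det) (f := fun t => colProj (Mt W L t))
        continuous_det_blk11.continuousAt (continuousAt_colProj hW L)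
    apply hc.eventually_lt continuousAt_const
    rw [Mt_zero, colProj_self hW hWT]
    exact h
  have h2 : (fun t : ℝ => FF ε K (colProj ((1 + t • L) * W)) * jac ((1 + t • L) * W))
      =ᶠ[𝓝 0] fun t => jac ((1 + t • L) * W) := by
    filter_upwards [h1, gram_ne hW L] with t ht1 ht2
    have hmem : colProj (Mt W L t) ∈ Gr 4 2 := colProj_mem_Gr (isUnit_iff_ne_zero.2 ht2)
    have := FF_eq_one hε hK hh hmem ht1
    unfold Mt at this
    rw [this, one_mul]
  have h3 := (hasDerivAt_jac hW L).congr_of_eventuallyEq h2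
  refine h3.congr_deriv ?_
  rw [FF_eq_one hε hK hh hT h, Aof_eq_self hε hK hh hT h, one_smul, hWT, hT.1]

/-! ### the first variation in the chart -/

theorem hasDerivAt_lin {c : ℝ → ℝ} (hc : ContinuousAt c 0) (a : ℝ) :
    HasDerivAt (fun t => a + t * c t) (c 0) 0 := by
  apply HasDerivAt.const_add
  rw [hasDerivAt_iff_tendsto_slope_zero]
  have h1 : Tendsto c (𝓝[≠] 0) (𝓝 (c 0)) := hc.tendsto.mono_left nhdsWithin_le_nhds
  apply h1.congr'
  filter_upwards [self_mem_nhdsWithin] with t ht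
  have ht' : t ≠ 0 := ht
  simp only [zero_add, zero_mul, sub_zero, smul_eq_mul]
  field_simp

def top (M : M42) : M2 := !![M 0 0, M 0 1; M 1 0, M 1 1]
def bot (M : M42) : M2 := !![M 2 0, M 2 1; M 3 0, M 3 1]

theorem stack_top_bot (M : M42) : stack (top M) (bot M) = M := by
  ext i j
  fin_cases i <;> fin_cases j <;> simp [stack, top, bot]

theorem U_mul (X : M2) (M : M42) : (stack (-Xᵀ) 1)ᵀ * M = bot M - X * top M := by
  conv_lhs => rw [← stack_top_bot M, stack_transpose_mul]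
  simp
  abel

theorem blk11_mul_transpose (W : M42) : blk11 (W * Wᵀ) = top W * (top W)ᵀ := by
  ext i j
  fin_cases i <;> fin_cases j <;> simp [blk11, top, Matrix.mul_apply, Fin.sum_univ_two]

theorem blk21_mul_transpose (W : M42) : blk21 (W * Wᵀ) = bot W * (top W)ᵀ := by
  ext i j
  fin_cases i <;> fin_cases j <;> simp [blk21, bot, top, Matrix.mul_apply, Fin.sum_univ_two]

/-- in the chart, a frame is `stack 1 X` times its upper block -/
theorem frame_eq {W : M42} {T : M4} (hWT : W * Wᵀ = T) (h : (blk11 T).det ≠ 0) :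
    (top W).det ≠ 0 ∧ bot W = Xof T * top W := by
  have h1 : (blk11 T).det = (top W).det * (top W).det := by
    rw [← hWT, blk11_mul_transpose, det_mul, det_transpose]
  have h2 : (top W).det ≠ 0 := fun h0 => h (by rw [h1, h0, mul_zero])
  refine ⟨h2, ?_⟩
  unfold Xof
  rw [← hWT, blk21_mul_transpose, blk11_mul_transpose, Matrix.mul_inv_rev, Matrix.mul_assoc (bot W),
    ← Matrix.mul_assoc (top W)ᵀ, Matrix.mul_nonsing_inv _ (by rw [det_transpose]; exact isUnit_iff_ne_zero.2 h2),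
    Matrix.one_mul, Matrix.mul_assoc, Matrix.nonsing_inv_mul _ (isUnit_iff_ne_zero.2 h2), Matrix.mul_one]

/-- the moved plane in the chart -/
noncomputable def Zt (W : M42) (L : M4) (X : M2) (t : ℝ) : M2 :=
  X + t • ((stack (-Xᵀ) 1)ᵀ * (L * W) * (top (Mt W L t))⁻¹)

theorem continuous_top (W : M42) (L : M4) : Continuous fun t => top (Mt W L t) := by
  have e : ∀ i j, Continuous fun t => Mt W L t i j := fun i j =>
    (continuous_apply j).comp ((continuous_apply i).comp (continuous_Mt W L))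
  apply continuous_matrix
  intro i j
  fin_cases i <;> fin_cases j <;> simp [top, e]

theorem top_ne {W : M42} (h : (top W).det ≠ 0) (L : M4) :
    ∀ᶠ t in 𝓝 (0:ℝ), (top (Mt W L t)).det ≠ 0 := by
  apply ((continuous_top W L).matrix_det).continuousAt.eventually_ne
  rw [Mt_zero]
  exact h

theorem stack_Zt {W : M42} {L : M4} {X : M2} (hX : bot W = X * top W) {t : ℝ}
    (ht : (top (Mt W L t)).det ≠ 0) : stack 1 (Zt W L X t) * top (Mt W L t) = Mt W L t := by
  rw [stack_mul, Matrix.one_mul]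
  have h1 : Zt W L X t * top (Mt W L t) = bot (Mt W L t) := by
    unfold Zt
    rw [Matrix.add_mul, Matrix.smul_mul, Matrix.mul_assoc _ (top (Mt W L t))⁻¹,
      Matrix.nonsing_inv_mul _ (isUnit_iff_ne_zero.2 ht), Matrix.mul_one]
    have h2 : t • ((stack (-Xᵀ) 1)ᵀ * (L * W)) = (stack (-Xᵀ) 1)ᵀ * Mt W L t := by
      unfold Mt
      rw [Matrix.add_mul, Matrix.one_mul, Matrix.mul_add, U_mul X W, hX, sub_self, zero_add, Matrix.smul_mul,
        Matrix.mul_smul]
    rw [h2, U_mul]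
    abel
  rw [h1, stack_top_bot]

theorem colProj_Mt {W : M42} {L : M4} {X : M2} (hX : bot W = X * top W) {t : ℝ}
    (ht : (top (Mt W L t)).det ≠ 0) : colProj (Mt W L t) = Pm (Zt W L X t) := by
  rw [← stack_Zt hX ht, colProj_mul (isUnit_iff_ne_zero.2 ht)]
  rfl

theorem continuousAt_Pt {W : M42} (h : (top W).det ≠ 0) (L : M4) (X : M2) :
    ContinuousAt (fun t => (stack (-Xᵀ) 1)ᵀ * (L * W) * (top (Mt W L t))⁻¹) 0 := by
  have h1 : ContinuousAt (fun t => (top (Mt W L t))⁻¹) 0 := by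
    apply ContinuousAt.comp (g := fun B : M2 => B⁻¹) (f := fun t => top (Mt W L t))
    · apply continuousAt_inv_matrix
      rw [Mt_zero]; exact h
    · exact (continuous_top W L).continuousAt
  have hm : Continuous fun B : M2 => (stack (-Xᵀ) 1)ᵀ * (L * W) * B :=
    continuous_const.matrix_mul continuous_id
  exact hm.continuousAt.comp h1

theorem trace_mat (u y w z : ℝ) (X : M2) :
    trace ((mat u y w z)ᵀ * X) = 2 * (u * cu X + y * cy X + w * cw X + z * cz X) := by
  simp [trace_fin_two, Matrix.mul_apply, Fin.sum_univ_two, mat, cu, cy, cw, cz]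
  ring

theorem firstVar_near {ε K : ℝ} (hε : 0 < ε) (hK : 10 ^ 10 ≤ K)
    {T : M4} (hT : T ∈ Gr 4 2) (h : 1 / 2 < (blk11 T).det)
    {W : M42} (hW : Wᵀ * W = 1) (hWT : W * Wᵀ = T) (L : M4) :
    HasDerivAt (fun t : ℝ => FF ε K (colProj ((1 + t • L) * W)) * jac ((1 + t • L) * W))
      (trace ((FF ε K T • Aof ε K T)ᵀ * L)) 0 := by
  have hK0 : 0 < K := lt_of_lt_of_le (by norm_num) hK
  set X := Xof T with hXdef
  obtain ⟨htop, hbot⟩ := frame_eq hWT (by linarith : (0:ℝ) < _).ne'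
  rw [← hXdef] at hbot
  -- the moved slope
  set Pt : ℝ → M2 := fun t => (stack (-Xᵀ) 1)ᵀ * (L * W) * (top (Mt W L t))⁻¹ with hPt
  have hPc : ContinuousAt Pt 0 := continuousAt_Pt htop L X
  have hPce : ∀ i j, ContinuousAt (fun t => Pt t i j) 0 := by
    intro i j
    have hcont : Continuous fun B : M2 => B i j := (continuous_apply j).comp (continuous_apply i)
    exact ContinuousAt.comp (g := fun B : M2 => B i j) (f := Pt) hcont.continuousAt hPc
  have hZ : ∀ t i j, Zt W L X t i j = X i j + t * Pt t i j := fun t i j => by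
    simp [Zt, hPt]
  have hZ0 : Zt W L X 0 = X := by simp [Zt]
  have hZc : ContinuousAt (Zt W L X) 0 := by
    unfold Zt
    exact continuousAt_const.add (continuousAt_id.smul hPc)
  -- the chart condition persists
  have hchart : ∀ᶠ t in 𝓝 (0:ℝ), 1 / 2 < (blk11 (Pm (Zt W L X t))).det := by
    have hc : ContinuousAt (fun t => ((1 + (Zt W L X t)ᵀ * Zt W L X t).det)⁻¹) 0 := by
      apply ContinuousAt.inv₀
      · have : Continuous fun Z : M2 => (1 + Zᵀ * Z).det :=
          (continuous_const.add ((continuous_id.matrix_transpose).matrix_mul continuous_id)).matrix_det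
        exact this.continuousAt.comp hZc
      · exact (det_one_add_pos _).ne'
    simp only [det_blk11_Pm]
    apply continuousAt_const.eventually_lt hc
    rw [hZ0, ← det_blk11_Pm, ← eq_Pm_of_mem_Gr hT (by linarith : (0:ℝ) < _).ne']
    exact h
  have hF : (fun t : ℝ => FF ε K (colProj ((1 + t • L) * W)))
      =ᶠ[𝓝 0] fun t => Real.exp (ε ^ 2 * psiM ε K (Zt W L X t)) := by
    filter_upwards [hchart, top_ne htop L] with t ht1 ht2
    have e1 : colProj ((1 + t • L) * W) = Pm (Zt W L X t) := colProj_Mt hbot ht2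
    rw [e1]
    unfold FF
    rw [if_pos ht1, Xof_Pm]
  -- derivatives of the coordinates
  set X' : M2 := Pt 0 with hX'
  have hd : ∀ (a b : Fin 2) , HasDerivAt (fun t => Zt W L X t a b) (X' a b) 0 := by
    intro a b
    have : (fun t => Zt W L X t a b) = fun t => X a b + t * Pt t a b := by
      funext t; exact hZ t a b
    rw [this]
    exact hasDerivAt_lin (hPce a b) _
  have hu : HasDerivAt (fun t => cu (Zt W L X t) / ε) (cu X' / ε) 0 :=
    (((hd 0 0).add (hd 1 1)).div_const 2).div_const ε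
  have hy : HasDerivAt (fun t => cy (Zt W L X t) / ε) (cy X' / ε) 0 :=
    (((hd 0 1).add (hd 1 0)).div_const 2).div_const ε
  have hw : HasDerivAt (fun t => cw (Zt W L X t) / ε) (cw X' / ε) 0 :=
    (((hd 0 0).sub (hd 1 1)).div_const 2).div_const ε
  have hz : HasDerivAt (fun t => cz (Zt W L X t) / ε) (cz X' / ε) 0 :=
    (((hd 0 1).sub (hd 1 0)).div_const 2).div_const ε
  have hpsi := psi_hasDerivAt (h := ε ^ 2) (K := K) (by positivity) hK0 hu hy hw hz
  have hexp := ((hpsi.const_mul (ε ^ 2)).exp).mul (hasDerivAt_jac hW L)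
  have hfun : (fun t : ℝ => FF ε K (colProj ((1 + t • L) * W)) * jac ((1 + t • L) * W))
      =ᶠ[𝓝 0] fun t => Real.exp (ε ^ 2 * psi (ε ^ 2) K (cu (Zt W L X t) / ε) (cy (Zt W L X t) / ε)
        (cw (Zt W L X t) / ε) (cz (Zt W L X t) / ε)) * jac ((1 + t • L) * W) := by
    filter_upwards [hF] with t ht
    rw [ht]
    rfl
  have hres := hexp.congr_of_eventuallyEq hfun
  refine hres.congr_deriv ?_
  have hjac : jac ((1 + (0:ℝ) • L) * W) = 1 := by
    unfold jac
    rw [zero_smul, add_zero, Matrix.one_mul, hW]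
    simp
  have hFT : FF ε K T = Real.exp (ε ^ 2 * psiM ε K X) := by
    unfold FF
    rw [if_pos h]
  have hAT : Aof ε K T = T + stack (-Xᵀ) 1 * Hm ε K X * (stack 1 X)ᵀ := by
    unfold Aof
    rw [if_pos h]
  rw [hjac, mul_one, hFT, hAT, transpose_smul, Matrix.smul_mul, trace_smul, smul_eq_mul, transpose_add,
    Matrix.add_mul, trace_add, hT.1, hWT]
  simp only [hZ0]
  -- the trace of the second term
  have hX'eq : X' = (stack (-Xᵀ) 1)ᵀ * (L * W) * (top W)⁻¹ := by
    rw [hX', hPt]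
    simp only [Mt_zero]
  have hV : W * (top W)⁻¹ = stack 1 X := by
    have e1 : stack 1 X * top W = W := by
      rw [stack_mul, Matrix.one_mul, ← hbot, stack_top_bot]
    calc W * (top W)⁻¹ = stack 1 X * top W * (top W)⁻¹ := by rw [e1]
      _ = stack 1 X := by
        rw [Matrix.mul_assoc, Matrix.mul_nonsing_inv _ (isUnit_iff_ne_zero.2 htop), Matrix.mul_one]
  have hX'V : X' = (stack (-Xᵀ) 1)ᵀ * L * stack 1 X := by
    rw [hX'eq, ← hV]
    simp only [Matrix.mul_assoc]
  have htr : trace ((stack (-Xᵀ) 1 * Hm ε K X * (stack 1 X)ᵀ)ᵀ * L) = trace ((Hm ε K X)ᵀ * X') := by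
    rw [hX'V, transpose_mul, transpose_mul, transpose_transpose, Matrix.mul_assoc, Matrix.trace_mul_comm]
    congr 1
    simp only [Matrix.mul_assoc]
  rw [htr]
  unfold Hm
  rw [transpose_smul, Matrix.smul_mul, trace_smul, trace_mat, smul_eq_mul]
  unfold psiM
  field_simp
  ring

theorem FF_firstVar {ε K : ℝ} (hε : 0 < ε) (hK : 10 ^ 10 ≤ K)
    (hh : 10 ^ 60 * K ^ 40 * ε ^ 2 ≤ 1) {T : M4} (hT : T ∈ Gr 4 2) :
    IsFirstVar 2 (FF ε K) T (FF ε K T • Aof ε K T) := by
  intro W hW hWT L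
  rcases lt_or_ge (1 / 2) (blk11 T).det with h | h
  · exact firstVar_near hε hK hT h hW hWT L
  · exact firstVar_far hε hK hh hT (by linarith) hW hWT L

theorem FF_pos (ε K : ℝ) (T : M4) : 0 < FF ε K T := by
  unfold FF
  split_ifs
  · exact Real.exp_pos _
  · exact one_pos

theorem gaussImage_FF {ε K : ℝ} (hε : 0 < ε) (hK : 10 ^ 10 ≤ K)
    (hh : 10 ^ 60 * K ^ 40 * ε ^ 2 ≤ 1) : gaussImage 4 2 (FF ε K) = Aof ε K '' Gr 4 2 := by
  ext A
  constructor
  · rintro ⟨T, hT, B, hB, rfl⟩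
    refine ⟨T, hT, ?_⟩
    rw [hB.unique hT (FF_firstVar hε hK hh hT), smul_smul, inv_mul_cancel₀ (FF_pos ε K T).ne', one_smul]
  · rintro ⟨T, hT, rfl⟩
    refine ⟨T, hT, _, FF_firstVar hε hK hh hT, ?_⟩
    rw [smul_smul, inv_mul_cancel₀ (FF_pos ε K T).ne', one_smul]

/-! ### regularity -/

theorem contDiffAt_entry (i j : Fin 4) (T : M4) : ContDiffAt ℝ 1 (fun T : M4 => T i j) T :=
  (contDiff_apply_apply ℝ ℝ i j).contDiffAt

theorem Xof_entries (T : M4) :
    Xof T 0 0 = (T 2 0 * T 1 1 - T 2 1 * T 1 0) / (T 0 0 * T 1 1 - T 0 1 * T 1 0) ∧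
    Xof T 0 1 = (T 2 1 * T 0 0 - T 2 0 * T 0 1) / (T 0 0 * T 1 1 - T 0 1 * T 1 0) ∧
    Xof T 1 0 = (T 3 0 * T 1 1 - T 3 1 * T 1 0) / (T 0 0 * T 1 1 - T 0 1 * T 1 0) ∧
    Xof T 1 1 = (T 3 1 * T 0 0 - T 3 0 * T 0 1) / (T 0 0 * T 1 1 - T 0 1 * T 1 0) := by
  unfold Xof blk11 blk21
  rw [Matrix.inv_def, Ring.inverse_eq_inv', adjugate_fin_two, det_fin_two]
  refine ⟨?_, ?_, ?_, ?_⟩ <;> simp [Matrix.mul_apply, Fin.sum_univ_two] <;> ring

theorem contDiffAt_Xof {T : M4} (h : (blk11 T).det ≠ 0) (i j : Fin 2) :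
    ContDiffAt ℝ 1 (fun T : M4 => Xof T i j) T := by
  have hdet : T 0 0 * T 1 1 - T 0 1 * T 1 0 ≠ 0 := by
    simpa [blk11, det_fin_two] using h
  have e := fun i j => contDiffAt_entry i j T
  have hd : ContDiffAt ℝ 1 (fun T : M4 => T 0 0 * T 1 1 - T 0 1 * T 1 0) T :=
    ((e 0 0).mul (e 1 1)).sub ((e 0 1).mul (e 1 0))
  fin_cases i <;> fin_cases j
  · have : (fun T : M4 => Xof T 0 0) = fun T => _ := funext fun T => (Xof_entries T).1
    simp only [Fin.zero_eta]
    rw [this]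
    exact (((e 2 0).mul (e 1 1)).sub ((e 2 1).mul (e 1 0))).div hd hdet
  · have : (fun T : M4 => Xof T 0 1) = fun T => _ := funext fun T => (Xof_entries T).2.1
    simp only [Fin.zero_eta, Fin.mk_one]
    rw [this]
    exact (((e 2 1).mul (e 0 0)).sub ((e 2 0).mul (e 0 1))).div hd hdet
  · have : (fun T : M4 => Xof T 1 0) = fun T => _ := funext fun T => (Xof_entries T).2.2.1
    simp only [Fin.zero_eta, Fin.mk_one]
    rw [this]
    exact (((e 3 0).mul (e 1 1)).sub ((e 3 1).mul (e 1 0))).div hd hdet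
  · have : (fun T : M4 => Xof T 1 1) = fun T => _ := funext fun T => (Xof_entries T).2.2.2
    simp only [Fin.mk_one]
    rw [this]
    exact (((e 3 1).mul (e 0 0)).sub ((e 3 0).mul (e 0 1))).div hd hdet

theorem FF_isIntegrand {ε K : ℝ} (hε : 0 < ε) (hK : 10 ^ 10 ≤ K)
    (hh : 10 ^ 60 * K ^ 40 * ε ^ 2 ≤ 1) : IsIntegrand 4 2 (FF ε K) := by
  have hK0 : 0 < K := lt_of_lt_of_le (by norm_num) hK
  intro T hT
  refine ⟨FF_pos ε K T, ?_⟩
  rcases lt_trichotomy (1 / 2) (blk11 T).det with h | h | h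
  · -- inside the chart
    have hne : (blk11 T).det ≠ 0 := by linarith
    have h1 : FF ε K =ᶠ[𝓝 T] fun T => Real.exp (ε ^ 2 * psiM ε K (Xof T)) := by
      filter_upwards [continuousAt_const.eventually_lt continuous_det_blk11.continuousAt h] with T' hT'
      unfold FF
      rw [if_pos hT']
    refine ContDiffAt.congr_of_eventuallyEq ?_ h1
    apply ContDiffAt.exp
    apply contDiffAt_const.mul
    have e := fun i j => contDiffAt_Xof hne i j
    exact psi_contDiffAt (by positivity) hK0 ((((e 0 0).add (e 1 1)).div_const 2).div_const ε)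
      ((((e 0 1).add (e 1 0)).div_const 2).div_const ε) ((((e 0 0).sub (e 1 1)).div_const 2).div_const ε)
      ((((e 0 1).sub (e 1 0)).div_const 2).div_const ε)
  · -- on the boundary
    have hne : (blk11 T).det ≠ 0 := by linarith
    have hq : 1 / 100 < qf (Xof T) := qf_big hT hne (by linarith)
    have e := fun i j => (contDiffAt_Xof hne i j).continuousAt
    have hqc : ContinuousAt (fun T => qf (Xof T)) T := by
      unfold qf cu cy cw cz
      exact ((((((e 0 0).add (e 1 1)).div_const 2).pow 2).add ((((e 0 1).add (e 1 0)).div_const 2).pow 2)).add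
        ((((e 0 0).sub (e 1 1)).div_const 2).pow 2)).add ((((e 0 1).sub (e 1 0)).div_const 2).pow 2)
    have h1 : FF ε K =ᶠ[𝓝 T] fun _ => 1 := by
      filter_upwards [continuousAt_const.eventually_lt hqc hq] with T' hT'
      unfold FF
      split_ifs
      · rw [psiM_eq_zero_of_theta (thetaM_zero_of_qf hε hK hh hT'.le)]
        simp
      · rfl
    exact contDiffAt_const.congr_of_eventuallyEq h1
  · -- outside
    have h1 : FF ε K =ᶠ[𝓝 T] fun _ => 1 := by
      filter_upwards [continuous_det_blk11.continuousAt.eventually_lt continuousAt_const h] with T' hT'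
      unfold FF
      rw [if_neg (not_lt.2 hT'.le)]
    exact contDiffAt_const.congr_of_eventuallyEq h1

end EC
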