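import Pool.Agent.Helper58.IQ.FormW
import Pool.Agent.Helper69.RY.Dev
import Pool.Agent.Helper69.RY.ConjA
import Pool.Agent.Helper21.EC.Card

/-!
# Isogeny invariance from the splitting statement
-/

open scoped NumberField
open WeierstrassCurve

namespace Pool.Agent.Helper21.EC

open Pool.Agent.Helper58.IQ

variable {K : Type*} [Field K] [CharZero K]

theorem qch_mul {d e : K} (hd : d ≠ 0) (he : e ≠ 0) : qch (d * e) = qch d * qch e := by
  ext g : 1
  rw [MonoidHom.mul_apply]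
  apply qch_unique (r := sqr d * sqr e)
  · rw [mul_pow, sqr_sq, sqr_sq, map_mul]
  · exact mul_ne_zero (sqr_ne hd) (sqr_ne he)
  · rw [map_mul, qch_sqr, qch_sqr, Units.val_mul, smul_mul_smul_comm]

/-- Either there is a stable subgroup of order 3 or the 3-torsion is simple. -/
theorem line_or_simple (W : WeierstrassCurve K) (hW : W.Δ ≠ 0) :
    (∃ T : AddSubgroup (Pts W), Stab W T ∧ T ≤ tor3 W ∧ Nat.card T = 3) ∨
    (∀ T : AddSubgroup (Pts W), (∀ P ∈ T, 3 • P = 0) → (∀ g, ∀ P ∈ T, ptsRep W g P ∈ T) →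
      T ≠ ⊥ → ∀ P : Pts W, 3 • P = 0 → P ∈ T) := by
  classical
  by_cases hex : ∃ T : AddSubgroup (Pts W), Stab W T ∧ T ≤ tor3 W ∧ Nat.card T = 3
  · exact Or.inl hex
  right
  intro T hT hs hne P hP
  by_contra hPT
  apply hex
  refine ⟨T, hs, fun P hP => hT P hP, ?_⟩
  have h9 := card_tor3 W hW
  have hTle : T ≤ tor3 W := fun P hP => hT P hP
  have hdvd : Nat.card T ∣ 9 := by
    rw [← h9]
    exact AddSubgroup.card_dvd_of_le hTle
  have hfin : Finite (tor3 W) := Nat.finite_of_card_ne_zero (by rw [h9]; norm_num)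
  have h1 : Nat.card T ≠ 1 := by
    intro h
    exact hne (AddSubgroup.eq_bot_of_card_eq T h)
  have h2 : Nat.card T ≠ 9 := by
    intro h
    apply hPT
    have := AddSubgroup.eq_of_le_of_card_ge hTle (by rw [h, h9])
    rw [this]
    exact hP
  have h3 : Nat.card T ≤ 9 := Nat.le_of_dvd (by norm_num) hdvd
  interval_cases h : Nat.card T <;> simp_all

theorem exists_tor3 (W : WeierstrassCurve K) (hW : W.Δ ≠ 0) :
    ∃ Q : Pts W, Q ≠ 0 ∧ 3 • Q = 0 := by
  have h9 := card_tor3 W hW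
  by_contra h
  push Not at h
  have h0 : tor3 W = ⊥ := by
    rw [eq_bot_iff]
    intro P hP
    rw [AddSubgroup.mem_bot]
    by_contra hne
    exact h P hne hP
  rw [h0, AddSubgroup.card_bot] at h9
  norm_num at h9

/-- Units acting on a nonzero element of order 3. -/
theorem unit_eq {M : Type*} [AddCommGroup M] {t : M} (h3 : 3 • t = 0) (h0 : t ≠ 0) {a b : ℤˣ}
    (h : (a : ℤ) • t = (b : ℤ) • t) : a = b := by
  have h2 : ¬ (2 : ℤ) • t = 0 := by
    intro h2
    apply h0
    have h3' : (3 : ℤ) • t = 0 := by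
      rw [← h3]
      norm_cast
    have : (3 : ℤ) • t = (2 : ℤ) • t + t := by
      rw [show (3 : ℤ) = 2 + 1 by norm_num, add_zsmul, one_zsmul]
    rw [h3', h2, zero_add] at this
    exact this.symm
  rcases Int.units_eq_one_or a with h1 | h1 <;> rcases Int.units_eq_one_or b with h4 | h4
  · rw [h1, h4]
  · exfalso
    rw [h1, h4] at h
    simp only [Units.val_neg, Units.val_one, neg_zsmul, one_zsmul] at h
    apply h2
    rw [two_zsmul]
    nth_rw 1 [h]
    exact neg_add_cancel t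
  · exfalso
    rw [h1, h4] at h
    simp only [Units.val_neg, Units.val_one, neg_zsmul, one_zsmul] at h
    apply h2
    rw [two_zsmul]
    nth_rw 1 [← h]
    exact neg_add_cancel t
  · rw [h1, h4]

theorem comb {M : Type*} [AddCommGroup M] (t w : M) (m n x y k : ℤ) :
    m • x • t + n • y • (w - k • t) - y • (m • t + n • w) = (m * x - n * y * k - y * m) • t := by
  module

/-- A curve with a 3-torsion point on which the Galois group acts by the character of `d`. -/
theorem form_of_point (W : WeierstrassCurve K) (hW : W.Δ ≠ 0) (Q : Pts W) (h0 : Q ≠ 0)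
    (h3 : 3 • Q = 0) (χ : GK K →* ℤˣ) (hχ : ∀ g, ptsRep W g Q = ((χ g : ℤˣ) : ℤ) • Q) :
    ∃ (T : AddSubgroup (Pts W)) (hs : Stab W T) (d : K), d ≠ 0 ∧ T ≤ tor3 W ∧ Nat.card T = 3 ∧
      qch d = χ ∧ Iso (lineRep W T hs) (chRep (qch d)) ∧
      Iso (quotRep W T hs) (chRep (qch (-3 * d))) := by
  have hs : Stab W (AddSubgroup.zmultiples Q) := by
    rintro g _ ⟨m, rfl⟩
    change ptsRep W g (m • Q) ∈ _
    rw [map_zsmul, hχ]
    exact AddSubgroup.zsmul_mem _ (AddSubgroup.zsmul_mem _ (AddSubgroup.mem_zmultiples Q) _) _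
  have hle : AddSubgroup.zmultiples Q ≤ tor3 W := by
    rw [AddSubgroup.zmultiples_le]
    exact h3
  have hc : Nat.card (AddSubgroup.zmultiples Q) = 3 := by
    rw [Nat.card_zmultiples]
    exact addOrderOf_eq_prime h3 h0
  obtain ⟨d, a, b, hG, -, hl, hq, t, w, k, hf, hT⟩ := formW W hW _ hs hle hc
  refine ⟨_, hs, d, hG.1, hle, hc, ?_, hl, hq⟩
  ext g : 1
  have ht : (t : Pts W) ∈ AddSubgroup.zmultiples Q := (hT t).2 ⟨1, (one_zsmul _).symm⟩
  obtain ⟨m, hm⟩ := ht
  have hm' : (t : Pts W) = m • Q := hm.symm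
  have ht3 : 3 • (t : Pts W) = 0 := congrArg Subtype.val hf.t3
  have ht0 : (t : Pts W) ≠ 0 := by
    intro h
    exact hf.t_ne (Subtype.ext h)
  apply unit_eq ht3 ht0
  have h1 : ptsRep W g (t : Pts W) = ((qch d g : ℤˣ) : ℤ) • (t : Pts W) :=
    congrArg Subtype.val (hf.gt g)
  rw [← h1, hm', map_zsmul, hχ, smul_comm]

/-- Isogeny invariance follows if Conjecture A for `W[3]` is equivalent to Conjecture A for the
subgroup and the quotient. -/
theorem inv_of_split (h : SplitInv K) : IsogInv K := by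
  intro W W' hW hW' ⟨φ, hφ⟩
  rcases line_or_simple W hW with ⟨T, hs, hT, hc⟩ | hsimple
  · obtain ⟨d, a, b, hG, -, hl, hq, t, w, k, hf, hTt⟩ := formW W hW T hs hT hc
    have hv : ∀ P : Pts W, P ∈ T ↔ ∃ m : ℤ, P = m • (t : Pts W) := by
      intro P
      constructor
      · intro hP
        obtain ⟨m, hm⟩ := (hTt ⟨P, hT hP⟩).1 hP
        exact ⟨m, congrArg Subtype.val hm⟩
      · rintro ⟨m, rfl⟩
        exact (hTt (m • t)).2 ⟨m, rfl⟩
    have hgt : ∀ g, ptsRep W g (t : Pts W) = ((qch d g : ℤˣ) : ℤ) • (t : Pts W) :=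
      fun g => congrArg Subtype.val (hf.gt g)
    have hgw : ∀ g, ptsRep W g (w : Pts W) =
        ((qch (-3 * d) g : ℤˣ) : ℤ) • ((w : Pts W) - k g • (t : Pts W)) :=
      fun g => congrArg Subtype.val (hf.gw g)
    obtain ⟨Q, hQ0, hQ3, hQ⟩ := Pool.Agent.Helper69.RY.devissage (ptsRep W) (ptsRep W') φ
      hφ.surj hφ.fin hφ.equivariant T (fun P hP => hT hP)
      (fun g => ((qch d g : ℤˣ) : ℤ)) (fun g => ((qch (-3 * d) g : ℤˣ) : ℤ))
      (by
        intro g P hP
        obtain ⟨m, rfl⟩ := (hv P).1 hP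
        rw [map_zsmul, hgt, smul_comm])
      (by
        intro g P hP
        obtain ⟨m, n, hmn⟩ := hf.span ⟨P, hP⟩
        have hmn' : P = m • (t : Pts W) + n • (w : Pts W) := congrArg Subtype.val hmn
        rw [hv]
        refine ⟨m * ((qch d g : ℤˣ) : ℤ) - n * ((qch (-3 * d) g : ℤˣ) : ℤ) * k g -
          ((qch (-3 * d) g : ℤˣ) : ℤ) * m, ?_⟩
        rw [hmn', map_add, map_zsmul, map_zsmul, hgt, hgw]
        exact comb _ _ _ _ _ _ _)
      (exists_tor3 W' hW')
    have h3 : (-3 : K) ≠ 0 := by norm_num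
    -- the characters on the second curve
    have key : ∃ (T' : AddSubgroup (Pts W')) (hs' : Stab W' T'), T' ≤ tor3 W' ∧
        Nat.card T' = 3 ∧
        ((Iso (lineRep W' T' hs') (chRep (qch d)) ∧
          Iso (quotRep W' T' hs') (chRep (qch (-3 * d)))) ∨
        (Iso (lineRep W' T' hs') (chRep (qch (-3 * d))) ∧
          Iso (quotRep W' T' hs') (chRep (qch d)))) := by
      rcases hQ with hQ | hQ
      · obtain ⟨T', hs', d', hd', hle', hc', he', hl', hq'⟩ :=
          form_of_point W' hW' Q hQ0 hQ3 (qch d) hQ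
        refine ⟨T', hs', hle', hc', Or.inl ⟨?_, ?_⟩⟩
        · rw [← he']
          exact hl'
        · rw [qch_mul h3 hG.1, ← he', ← qch_mul h3 hd']
          exact hq'
      · obtain ⟨T', hs', d', hd', hle', hc', he', hl', hq'⟩ :=
          form_of_point W' hW' Q hQ0 hQ3 (qch (-3 * d)) hQ
        refine ⟨T', hs', hle', hc', Or.inr ⟨?_, ?_⟩⟩
        · rw [← he']
          exact hl'
        · rw [qch_mul h3 hd', he', ← qch_mul h3 (mul_ne_zero h3 hG.1),
            show -3 * (-3 * d) = d * 3 ^ 2 by ring, qch_sq hG.1 (by norm_num)] at hq'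
          exact hq'
    obtain ⟨T', hs', hle', hc', hiso⟩ := key
    rw [h W T hs hW hT hc, h W' T' hs' hW' hle' hc',
      Pool.Agent.Helper69.RY.conjA_iso 3 hl, Pool.Agent.Helper69.RY.conjA_iso 3 hq]
    rcases hiso with ⟨h1, h2⟩ | ⟨h1, h2⟩
    · rw [Pool.Agent.Helper69.RY.conjA_iso 3 h1, Pool.Agent.Helper69.RY.conjA_iso 3 h2]
    · rw [Pool.Agent.Helper69.RY.conjA_iso 3 h1, Pool.Agent.Helper69.RY.conjA_iso 3 h2, and_comm]
  · apply Pool.Agent.Helper69.RY.conjA_iso 3
    exact Pool.Agent.Helper69.RY.iso_of_simple (ptsRep W) (ptsRep W') φ hφ.surj hφ.fin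
      hφ.equivariant hsimple (exists_tor3 W' hW') (stab_tor3 W) (stab_tor3 W')

end Pool.Agent.Helper21.EC
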